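import Mathlib

/-!
# Containers for the independent sets of a directed graph, and sparse random vertex sets
-/

set_option autoImplicit false

namespace Pool.Agent.Q146.RF

open Finset

variable {V : Type*} [DecidableEq V]

/-- No edge from a member of `S` to a member of `S`. -/
def Indep (E : V → V → Prop) (S : Finset V) : Prop := ∀ a ∈ S, ∀ b ∈ S, ¬ E a b

omit [DecidableEq V] in
lemma Indep.mono {E : V → V → Prop} {S T : Finset V} (h : Indep E T) (hs : S ⊆ T) : Indep E S :=
  fun a ha b hb => h a (hs ha) b (hs hb)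

open Classical in
/-- The container lemma (Kleitman and Winston): if every vertex set with more than `R` elements has a
vertex of degree at least `d` into it, then every independent set `I` contains a set `T` of at most
`|U| / d` elements which determines a container `c T` of `I \ T` with at most `R` elements. -/
theorem containers (E : V → V → Prop) (R : ℝ) (d : ℕ)
    (hd : ∀ U : Finset V, R < #U → ∃ v ∈ U, d ≤ #(U.filter (E v))) :
    ∀ U : Finset V, ∃ c : Finset V → Finset V, (∀ T, (#(c T) : ℝ) ≤ R) ∧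
      ∀ I ⊆ U, Indep E I → ∃ T ⊆ I, #T * d ≤ #U ∧ I ⊆ T ∪ c T := by
  intro U
  induction' hn : #U using Nat.strong_induction_on with n ih generalizing U
  rcases le_or_gt (#U : ℝ) R with hU | hU
  · exact ⟨fun _ => U, fun _ => hU, fun I hI _ => ⟨∅, empty_subset _, by simp, by simpa using hI⟩⟩
  · obtain ⟨v, hv, hdv⟩ := hd U hU
    obtain ⟨c1, hc1, h1⟩ := ih (#(U.erase v)) (by rw [← hn]; exact card_erase_lt_of_mem hv)
      (U.erase v) rfl
    have hU2 : #((U.filter fun u => ¬ E v u).erase v) < n := by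
      rw [← hn]
      refine lt_of_le_of_lt (card_le_card ?_) (card_erase_lt_of_mem hv)
      exact erase_subset_erase v (filter_subset _ _)
    obtain ⟨c2, hc2, h2⟩ := ih _ hU2 ((U.filter fun u => ¬ E v u).erase v) rfl
    have hle : #((U.filter fun u => ¬ E v u).erase v) + d ≤ #U := by
      have h3 := card_filter_add_card_filter_not (s := U) (E v)
      have h4 : #((U.filter fun u => ¬ E v u).erase v) ≤ #(U.filter fun u => ¬ E v u) :=
        card_le_card (erase_subset _ _)
      omega
    refine ⟨fun T => if v ∈ T then c2 (T.erase v) else c1 T, fun T => ?_, fun I hI hind => ?_⟩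
    · by_cases hvT : v ∈ T
      · simp only [hvT, if_true]; exact hc2 _
      · simp only [hvT, if_false]; exact hc1 _
    · by_cases hvI : v ∈ I
      · obtain ⟨T, hT, hTc, hIT⟩ := h2 (I.erase v) (by
          intro u hu
          obtain ⟨hu1, hu2⟩ := mem_erase.1 hu
          exact mem_erase.2 ⟨hu1, mem_filter.2 ⟨hI hu2, hind v hvI u hu2⟩⟩)
          (hind.mono (erase_subset _ _))
        have hvT : v ∉ T := fun h => (mem_erase.1 (hT h)).1 rfl
        refine ⟨insert v T, insert_subset hvI (hT.trans (erase_subset _ _)), ?_, ?_⟩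
        · rw [card_insert_of_notMem hvT, add_mul, one_mul, ← hn]
          omega
        · simp only [mem_insert_self, if_true, erase_insert hvT]
          intro u hu
          by_cases huv : u = v
          · subst huv; exact mem_union_left _ (mem_insert_self _ _)
          · have := hIT (mem_erase.2 ⟨huv, hu⟩)
            rcases mem_union.1 this with h | h
            · exact mem_union_left _ (mem_insert_of_mem h)
            · exact mem_union_right _ h
      · obtain ⟨T, hT, hTc, hIT⟩ := h1 I (subset_erase.2 ⟨hI, hvI⟩) hind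
        have hvT : v ∉ T := fun h => hvI (hT h)
        refine ⟨T, hT, ?_, ?_⟩
        · have := card_erase_of_mem hv
          omega
        · simp only [hvT, if_false]
          exact hIT

/-! ### Random vertex sets -/

section Random

variable [Fintype V]

/-- The weight of the vertex set `F`, if all vertices are taken independently with probability
`p`. -/
noncomputable def wt (p : ℝ) (F : Finset V) : ℝ := p ^ #F * (1 - p) ^ (Fintype.card V - #F)

open Classical in
/-- The probability of `P`. -/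
noncomputable def Pr (p : ℝ) (P : Finset V → Prop) : ℝ := ∑ F with P F, wt p F

omit [DecidableEq V] in
lemma wt_nonneg {p : ℝ} (h0 : 0 ≤ p) (h1 : p ≤ 1) (F : Finset V) : 0 ≤ wt p F :=
  mul_nonneg (pow_nonneg h0 _) (pow_nonneg (by linarith) _)

lemma sum_prod (a b : V → ℝ) : ∑ F : Finset V, (∏ v ∈ F, a v) * ∏ v ∈ Fᶜ, b v =
    ∏ v, (a v + b v) := by
  have h := prod_add a b (univ : Finset V)
  rw [h, powerset_univ]
  exact sum_congr rfl fun F _ => by rw [compl_eq_univ_sdiff]

lemma wt_eq (p : ℝ) (F : Finset V) : wt p F = (∏ _v ∈ F, p) * ∏ _v ∈ Fᶜ, (1 - p) := by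
  rw [wt, prod_const, prod_const, card_compl]

lemma sum_wt (p : ℝ) : ∑ F : Finset V, wt p F = 1 := by
  simp only [wt_eq]
  rw [sum_prod]
  simp

open Classical in
lemma Pr_mono {p : ℝ} (h0 : 0 ≤ p) (h1 : p ≤ 1) {P Q : Finset V → Prop} (h : ∀ F, P F → Q F) :
    Pr p P ≤ Pr p Q :=
  sum_le_sum_of_subset_of_nonneg (fun F hF => mem_filter.2 ⟨mem_univ _, h F (mem_filter.1 hF).2⟩)
    fun F _ _ => wt_nonneg h0 h1 F

open Classical in
lemma Pr_le {p : ℝ} {P : Finset V → Prop} {g : Finset V → ℝ} (hg : ∀ F, 0 ≤ g F)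
    (h : ∀ F, P F → wt p F ≤ g F) : Pr p P ≤ ∑ F, g F :=
  (sum_le_sum fun F hF => h F (mem_filter.1 hF).2).trans
    (sum_le_sum_of_subset_of_nonneg (filter_subset _ _) fun F _ _ => hg F)

open Classical in
/-- Chernoff's bound, together with the prescribed elements `T`. -/
lemma chernoff {p l b : ℝ} (h0 : 0 ≤ p) (h1 : p ≤ 1) (hl : 0 ≤ l) (T D : Finset V)
    (hTD : Disjoint T D) :
    ∑ F : Finset V with T ⊆ F ∧ b ≤ #(F ∩ D), wt p F ≤
      p ^ #T * (Real.exp (-(l * b)) * (1 + p * (Real.exp l - 1)) ^ #D) := by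
  have hexp : 0 < Real.exp l := Real.exp_pos _
  have key : ∀ F : Finset V, (if T ⊆ F ∧ b ≤ #(F ∩ D) then wt p F else 0) ≤
      Real.exp (-(l * b)) * ((∏ v ∈ F, (p * if v ∈ D then Real.exp l else 1)) *
        ∏ v ∈ Fᶜ, (if v ∈ T then 0 else 1 - p)) := by
    intro F
    have hrhs : 0 ≤ Real.exp (-(l * b)) * ((∏ v ∈ F, (p * if v ∈ D then Real.exp l else 1)) *
        ∏ v ∈ Fᶜ, (if v ∈ T then 0 else 1 - p)) := by
      refine mul_nonneg (Real.exp_pos _).le (mul_nonneg (prod_nonneg fun v _ => ?_)
        (prod_nonneg fun v _ => ?_))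
      · split_ifs <;> positivity
      · split_ifs
        · exact le_rfl
        · linarith
    split_ifs with h
    · obtain ⟨hT, hb⟩ := h
      have e1 : ∏ v ∈ Fᶜ, (if v ∈ T then (0 : ℝ) else 1 - p) = ∏ _v ∈ Fᶜ, (1 - p) :=
        prod_congr rfl fun v hv => if_neg fun hvT => (mem_compl.1 hv) (hT hvT)
      have e2 : ∏ v ∈ F, (p * if v ∈ D then Real.exp l else 1) =
          (∏ _v ∈ F, p) * Real.exp l ^ #(F ∩ D) := by
        rw [prod_mul_distrib]
        congr 1
        rw [← prod_const, ← filter_mem_eq_inter, prod_filter]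
      rw [e1, e2, wt_eq]
      have h3 : 1 ≤ Real.exp (-(l * b)) * Real.exp l ^ #(F ∩ D) := by
        rw [← Real.exp_nat_mul, ← Real.exp_add]
        apply Real.one_le_exp
        nlinarith
      have h4 : 0 ≤ (∏ _v ∈ F, p) * ∏ _v ∈ Fᶜ, (1 - p) := by
        rw [← wt_eq]; exact wt_nonneg h0 h1 F
      calc (∏ _v ∈ F, p) * ∏ _v ∈ Fᶜ, (1 - p)
          ≤ (Real.exp (-(l * b)) * Real.exp l ^ #(F ∩ D)) *
            ((∏ _v ∈ F, p) * ∏ _v ∈ Fᶜ, (1 - p)) := le_mul_of_one_le_left h4 h3
        _ = _ := by ring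
    · exact hrhs
  rw [sum_filter]
  refine (sum_le_sum fun F _ => key F).trans ?_
  rw [← mul_sum, sum_prod]
  have h5 : ∏ v : V, ((p * if v ∈ D then Real.exp l else 1) + if v ∈ T then 0 else 1 - p) =
      p ^ #T * (1 + p * (Real.exp l - 1)) ^ #D := by
    have h6 : ∀ v : V, ((p * if v ∈ D then Real.exp l else 1) + if v ∈ T then 0 else 1 - p) =
        (if v ∈ T then p else 1) * (if v ∈ D then 1 + p * (Real.exp l - 1) else 1) := by
      intro v
      by_cases hT : v ∈ T
      · have hD : v ∉ D := disjoint_left.1 hTD hT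
        simp [hT, hD]
      · by_cases hD : v ∈ D
        · simp only [hT, hD, if_true, if_false]; ring
        · simp [hT, hD]
    rw [prod_congr rfl fun v _ => h6 v, prod_mul_distrib]
    congr 1
    · rw [prod_ite_mem, univ_inter, prod_const]
    · rw [prod_ite_mem, univ_inter, prod_const]
  rw [h5]
  apply le_of_eq
  ring

/-- The number of small sets, with weights. -/
lemma sum_small {p x : ℝ} (h0 : 0 ≤ p) (hx : 0 < x) (hx1 : x ≤ 1) (q : ℕ) :
    ∑ T : Finset V with #T ≤ q, p ^ #T ≤ (1 / x) ^ q * Real.exp (p * x * Fintype.card V) := by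
  have h1 : ∀ T ∈ (univ : Finset (Finset V)).filter (fun T => #T ≤ q),
      p ^ #T ≤ (1 / x) ^ q * (p * x) ^ #T := by
    intro T hT
    have hq : #T ≤ q := (mem_filter.1 hT).2
    have h2 : 1 ≤ (1 / x) ^ q * x ^ #T := by
      obtain ⟨r, hr⟩ := Nat.exists_eq_add_of_le hq
      rw [hr, pow_add, mul_right_comm, ← mul_pow, one_div_mul_cancel hx.ne', one_pow, one_mul]
      exact one_le_pow₀ (one_le_one_div hx hx1)
    calc p ^ #T ≤ ((1 / x) ^ q * x ^ #T) * p ^ #T := le_mul_of_one_le_left (by positivity) h2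
      _ = _ := by rw [mul_pow]; ring
  refine (sum_le_sum h1).trans ?_
  rw [← mul_sum]
  refine mul_le_mul_of_nonneg_left ?_ (by positivity)
  calc ∑ T : Finset V with #T ≤ q, (p * x) ^ #T
      ≤ ∑ T : Finset V, (p * x) ^ #T :=
        sum_le_sum_of_subset_of_nonneg (filter_subset _ _) fun _ _ _ => by positivity
    _ = (1 + p * x) ^ Fintype.card V := by
        have h := sum_prod (V := V) (fun _ => p * x) (fun _ => 1)
        simp only [prod_const, one_pow, mul_one] at h
        rw [h, card_univ, add_comm]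
    _ ≤ Real.exp (p * x) ^ Fintype.card V := by
        refine pow_le_pow_left₀ (by positivity) ?_ _
        have := Real.add_one_le_exp (p * x)
        linarith
    _ = Real.exp (p * x * Fintype.card V) := by
        rw [← Real.exp_nat_mul]; ring_nf

open Classical in
/-- The union bound over the containers. -/
theorem random_bound (E : V → V → Prop) (R : ℝ) (d q : ℕ)
    (hd : ∀ U : Finset V, R < #U → ∃ v ∈ U, d ≤ #(U.filter (E v)))
    (hq : ∀ t : ℕ, t * d ≤ Fintype.card V → t ≤ q) {p l x a : ℝ} (h0 : 0 ≤ p) (h1 : p ≤ 1)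
    (hl : 0 ≤ l) (hx : 0 < x) (hx1 : x ≤ 1) :
    Pr p (fun F : Finset V => ∃ S ⊆ F, Indep E S ∧ a ≤ #S) ≤
      (1 / x) ^ q * Real.exp (p * x * Fintype.card V + p * (Real.exp l - 1) * R - l * (a - q)) := by
  obtain ⟨c, hcR, hc⟩ := containers E R d hd univ
  have hexp : 1 ≤ Real.exp l := Real.one_le_exp hl
  have hsub : Pr p (fun F : Finset V => ∃ S ⊆ F, Indep E S ∧ a ≤ #S) ≤
      ∑ T : Finset V with #T ≤ q,
        ∑ F : Finset V with T ⊆ F ∧ (a - q) ≤ #(F ∩ (c T \ T)), wt p F := by
    have h2 : ∀ F : Finset V, (∃ S ⊆ F, Indep E S ∧ a ≤ #S) →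
        wt p F ≤ ∑ T : Finset V with #T ≤ q,
          if T ⊆ F ∧ (a - q) ≤ #(F ∩ (c T \ T)) then wt p F else 0 := by
      rintro F ⟨S, hSF, hS, haS⟩
      obtain ⟨T, hTS, hTc, hST⟩ := hc S (subset_univ _) hS
      have hTq : #T ≤ q := hq _ (by rw [← card_univ]; exact hTc)
      have h3 : T ⊆ F ∧ (a - q) ≤ #(F ∩ (c T \ T)) := by
        refine ⟨hTS.trans hSF, ?_⟩
        have h4 : S ⊆ T ∪ (F ∩ (c T \ T)) := by
          intro s hs
          by_cases hsT : s ∈ T
          · exact mem_union_left _ hsT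
          · rcases mem_union.1 (hST hs) with h | h
            · exact absurd h hsT
            · exact mem_union_right _ (mem_inter.2 ⟨hSF hs, mem_sdiff.2 ⟨h, hsT⟩⟩)
        have h5 : (#S : ℝ) ≤ #T + #(F ∩ (c T \ T)) := by
          exact_mod_cast (card_le_card h4).trans (card_union_le _ _)
        have h6 : (#T : ℝ) ≤ q := by exact_mod_cast hTq
        linarith
      calc wt p F = (if T ⊆ F ∧ (a - q) ≤ #(F ∩ (c T \ T)) then wt p F else 0) := by
            rw [if_pos h3]
        _ ≤ _ := single_le_sum (f := fun T => if T ⊆ F ∧ (a - q) ≤ #(F ∩ (c T \ T)) then wt p F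
            else 0) (fun T _ => by
              split_ifs
              · exact wt_nonneg h0 h1 F
              · exact le_rfl) (mem_filter.2 ⟨mem_univ _, hTq⟩)
    refine (Pr_le (g := fun F => ∑ T : Finset V with #T ≤ q,
      if T ⊆ F ∧ (a - q) ≤ #(F ∩ (c T \ T)) then wt p F else 0) (fun F => sum_nonneg fun T _ => by
        split_ifs
        · exact wt_nonneg h0 h1 F
        · exact le_rfl) h2).trans ?_
    rw [sum_comm]
    exact sum_le_sum fun T _ => le_of_eq (sum_filter _ _).symm
  refine hsub.trans ?_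
  have h7 : ∀ T : Finset V, ∑ F : Finset V with T ⊆ F ∧ (a - q) ≤ #(F ∩ (c T \ T)), wt p F ≤
      p ^ #T * Real.exp (p * (Real.exp l - 1) * R - l * (a - q)) := by
    intro T
    refine (chernoff h0 h1 hl T (c T \ T) disjoint_sdiff).trans ?_
    refine mul_le_mul_of_nonneg_left ?_ (pow_nonneg h0 _)
    have h8 : 0 ≤ p * (Real.exp l - 1) := mul_nonneg h0 (by linarith)
    have h9 : (1 + p * (Real.exp l - 1)) ^ #(c T \ T) ≤ Real.exp (p * (Real.exp l - 1) * R) := by
      calc (1 + p * (Real.exp l - 1)) ^ #(c T \ T)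
          ≤ Real.exp (p * (Real.exp l - 1)) ^ #(c T \ T) := by
            refine pow_le_pow_left₀ (by positivity) ?_ _
            have := Real.add_one_le_exp (p * (Real.exp l - 1))
            linarith
        _ = Real.exp (p * (Real.exp l - 1) * #(c T \ T)) := by
            rw [← Real.exp_nat_mul]; ring_nf
        _ ≤ Real.exp (p * (Real.exp l - 1) * R) := by
            apply Real.exp_le_exp.2
            refine mul_le_mul_of_nonneg_left ?_ h8
            have : (#(c T \ T) : ℝ) ≤ #(c T) := by exact_mod_cast card_le_card sdiff_subset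
            exact this.trans (hcR T)
    calc Real.exp (-(l * (a - q))) * (1 + p * (Real.exp l - 1)) ^ #(c T \ T)
        ≤ Real.exp (-(l * (a - q))) * Real.exp (p * (Real.exp l - 1) * R) :=
          mul_le_mul_of_nonneg_left h9 (Real.exp_pos _).le
      _ = _ := by rw [← Real.exp_add]; ring_nf
  calc ∑ T : Finset V with #T ≤ q,
        ∑ F : Finset V with T ⊆ F ∧ (a - q) ≤ #(F ∩ (c T \ T)), wt p F
      ≤ ∑ T : Finset V with #T ≤ q,
          p ^ #T * Real.exp (p * (Real.exp l - 1) * R - l * (a - q)) := sum_le_sum fun T _ => h7 T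
    _ = (∑ T : Finset V with #T ≤ q, p ^ #T) *
          Real.exp (p * (Real.exp l - 1) * R - l * (a - q)) := by rw [sum_mul]
    _ ≤ ((1 / x) ^ q * Real.exp (p * x * Fintype.card V)) *
          Real.exp (p * (Real.exp l - 1) * R - l * (a - q)) :=
        mul_le_mul_of_nonneg_right (sum_small h0 hx hx1 q) (Real.exp_pos _).le
    _ = _ := by rw [mul_assoc, ← Real.exp_add]; ring_nf

end Random

end Pool.Agent.Q146.RF
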