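import Pool.Agent.Q146.RF.Cont

/-!
# The choice of the parameters in the union bound, and the number of independent sets
-/

set_option autoImplicit false

namespace Pool.Agent.Q146.RF

open Finset

variable {V : Type*} [DecidableEq V] [Fintype V]

open Classical in
/-- Sparse random sets contain no large independent sets, if dense sets have vertices of degree
`≥ d` and `n / d` is small compared to `p n`. -/
theorem random_concrete (E : V → V → Prop) {ρ θ p : ℝ} {d q : ℕ} (hρ0 : 0 ≤ ρ) (hρθ : ρ < θ)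
    (hθ1 : θ ≤ 1) (h0 : 0 ≤ p) (h1 : p ≤ 1)
    (hd : ∀ U : Finset V, ρ * Fintype.card V < #U → ∃ v ∈ U, d ≤ #(U.filter (E v)))
    (hq : ∀ t : ℕ, t * d ≤ Fintype.card V → t ≤ q)
    (hqp : q * (Real.log (16 / (θ - ρ) ^ 2) + 1) ≤ (θ - ρ) ^ 2 / 16 * (p * Fintype.card V)) :
    Pr p (fun F : Finset V => ∃ S ⊆ F, Indep E S ∧ θ * (p * Fintype.card V) ≤ #S) ≤
      Real.exp (-((θ - ρ) ^ 2 / 8 * (p * Fintype.card V))) := by
  set ε : ℝ := θ - ρ with hε
  set n : ℝ := (Fintype.card V : ℝ) with hn
  have hε0 : 0 < ε := by linarith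
  have hε1 : ε ≤ 1 := by linarith
  have hn0 : 0 ≤ n := by positivity
  have hx : 0 < ε ^ 2 / 16 := by positivity
  have hx1 : ε ^ 2 / 16 ≤ 1 := by nlinarith
  have hb := random_bound E (ρ * n) d q hd hq (p := p) (l := ε / 2) (x := ε ^ 2 / 16)
    (a := θ * (p * n)) h0 h1 (by positivity) hx hx1
  refine hb.trans ?_
  have e1 : (1 / (ε ^ 2 / 16)) ^ q = Real.exp (q * Real.log (16 / ε ^ 2)) := by
    rw [one_div_div, ← Real.rpow_natCast, Real.rpow_def_of_pos (by positivity), mul_comm]
  rw [e1, ← Real.exp_add]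
  apply Real.exp_le_exp.2
  have e2 : Real.exp (ε / 2) - 1 ≤ ε / 2 + (ε / 2) ^ 2 := by
    have := Real.abs_exp_sub_one_sub_id_le (x := ε / 2) (by rw [abs_of_pos (by positivity)]; linarith)
    have := (abs_le.1 this).2
    linarith
  have e3 : p * (Real.exp (ε / 2) - 1) * (ρ * n) ≤ (ε / 2 + (ε / 2) ^ 2) * (ρ * (p * n)) := by
    calc p * (Real.exp (ε / 2) - 1) * (ρ * n) = (Real.exp (ε / 2) - 1) * (ρ * (p * n)) := by ring
      _ ≤ _ := mul_le_mul_of_nonneg_right e2 (by positivity)
  have e4 : (q : ℝ) * (ε / 2) ≤ q * 1 := by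
    apply mul_le_mul_of_nonneg_left _ (by positivity)
    linarith
  have e5 : (ε / 2 + (ε / 2) ^ 2) * (ρ * (p * n)) - ε / 2 * (θ * (p * n)) ≤
      -(ε ^ 2 / 4) * (p * n) := by
    have hpn : 0 ≤ p * n := by positivity
    have e6 : ρ * (ε / 2 + (ε / 2) ^ 2) - ε / 2 * θ ≤ -(ε ^ 2 / 4) := by
      have : θ = ρ + ε := by rw [hε]; ring
      rw [this]
      nlinarith [mul_nonneg (by linarith : (0 : ℝ) ≤ 1 - ρ) (sq_nonneg ε)]
    calc _ = (ρ * (ε / 2 + (ε / 2) ^ 2) - ε / 2 * θ) * (p * n) := by ring
      _ ≤ _ := mul_le_mul_of_nonneg_right e6 hpn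
  nlinarith

open Classical in
/-- The number of independent sets. -/
theorem count_indep (E : V → V → Prop) {ρ x : ℝ} {d q : ℕ} (hx : 0 < x) (hx1 : x ≤ 1)
    (hd : ∀ U : Finset V, ρ * Fintype.card V < #U → ∃ v ∈ U, d ≤ #(U.filter (E v)))
    (hq : ∀ t : ℕ, t * d ≤ Fintype.card V → t ≤ q) :
    (#(univ.filter fun S : Finset V => Indep E S) : ℝ) ≤
      (1 / x) ^ q * Real.exp (x * Fintype.card V) * (2 : ℝ) ^ (ρ * Fintype.card V) := by
  obtain ⟨c, hcR, hc⟩ := containers E (ρ * Fintype.card V) d hd univ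
  have h1 : (univ.filter fun S : Finset V => Indep E S) ⊆
      (univ.filter fun T : Finset V => #T ≤ q).biUnion fun T =>
        ((c T).powerset).image fun W => T ∪ W := by
    intro S hS
    obtain ⟨T, hTS, hTc, hST⟩ := hc S (subset_univ _) (mem_filter.1 hS).2
    refine mem_biUnion.2 ⟨T, mem_filter.2 ⟨mem_univ _, hq _ (by rw [← card_univ]; exact hTc)⟩,
      mem_image.2 ⟨S ∩ c T, mem_powerset.2 inter_subset_right, ?_⟩⟩
    ext s
    simp only [mem_union, mem_inter]
    constructor
    · rintro (h | h)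
      · exact hTS h
      · exact h.1
    · intro h
      rcases mem_union.1 (hST h) with h' | h'
      · exact Or.inl h'
      · exact Or.inr ⟨h, h'⟩
  have h2 : (#(univ.filter fun S : Finset V => Indep E S) : ℝ) ≤
      ∑ T : Finset V with #T ≤ q, (2 : ℝ) ^ (ρ * Fintype.card V) := by
    calc (#(univ.filter fun S : Finset V => Indep E S) : ℝ)
        ≤ ∑ T : Finset V with #T ≤ q, (#(((c T).powerset).image fun W => T ∪ W) : ℝ) := by
          exact_mod_cast (card_le_card h1).trans card_biUnion_le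
      _ ≤ _ := by
          refine sum_le_sum fun T _ => ?_
          have e1 : (#(((c T).powerset).image fun W => T ∪ W) : ℝ) ≤ 2 ^ #(c T) := by
            have := card_image_le (s := (c T).powerset) (f := fun W => T ∪ W)
            rw [card_powerset] at this
            exact_mod_cast this
          refine e1.trans ?_
          rw [← Real.rpow_natCast]
          exact Real.rpow_le_rpow_of_exponent_le (by norm_num) (hcR T)
  refine h2.trans ?_
  rw [sum_const, nsmul_eq_mul]
  refine mul_le_mul_of_nonneg_right ?_ (by positivity)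
  have h3 := sum_small (V := V) (p := 1) (x := x) (by norm_num) hx hx1 q
  simp only [one_pow, one_mul, sum_const, nsmul_eq_mul, mul_one] at h3
  exact h3

/-- The probability that `F` contains a given set. -/
lemma sum_superset {p : ℝ} (T : Finset V) :
    ∑ F : Finset V with T ⊆ F, wt p F = p ^ #T := by
  have h1 := sum_prod (V := V) (fun _ => p) (fun v => if v ∈ T then 0 else 1 - p)
  have h2 : ∀ F : Finset V, (∏ _v ∈ F, p) * ∏ v ∈ Fᶜ, (if v ∈ T then (0 : ℝ) else 1 - p) =
      if T ⊆ F then wt p F else 0 := by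
    intro F
    split_ifs with h
    · rw [wt_eq]
      congr 1
      exact prod_congr rfl fun v hv => if_neg fun hvT => (mem_compl.1 hv) (h hvT)
    · obtain ⟨v, hv, hvF⟩ := not_subset.1 h
      have : ∏ v ∈ Fᶜ, (if v ∈ T then (0 : ℝ) else 1 - p) = 0 :=
        prod_eq_zero (mem_compl.2 hvF) (if_pos hv)
      rw [this, mul_zero]
  simp only [h2] at h1
  rw [sum_filter, h1]
  have h3 : ∀ v : V, p + (if v ∈ T then 0 else 1 - p) = if v ∈ T then p else 1 := by
    intro v
    split_ifs <;> ring
  rw [prod_congr rfl fun v _ => h3 v, prod_ite_mem, univ_inter, prod_const]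

/-- The first moment method: a random set contains a large independent set if there are few
edges. -/
theorem first_moment (E : V → V → Prop) [∀ a b, Decidable (E a b)] (hE : ∀ a, ¬ E a a) {p : ℝ}
    (h0 : 0 ≤ p) (h1 : p ≤ 1)
    (ng : Finset V → ℕ) (hng : ∀ F S : Finset V, S ⊆ F → Indep E S → #S ≤ ng F) :
    p * Fintype.card V - p ^ 2 * #(univ.filter fun e : V × V => E e.1 e.2) ≤
      ∑ F : Finset V, wt p F * ng F := by
  have h2 : ∀ F : Finset V, (#F : ℝ) - ∑ e : V × V with E e.1 e.2,
      (if ({e.1, e.2} : Finset V) ⊆ F then 1 else 0) ≤ ng F := by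
    intro F
    have h3 : Indep E (F.filter fun a => ∀ b ∈ F, ¬ E a b) := by
      intro a ha b hb
      exact (mem_filter.1 ha).2 b (mem_filter.1 hb).1
    have h4 := hng F _ (filter_subset _ _) h3
    have h5 := card_filter_add_card_filter_not (s := F) (fun a => ∀ b ∈ F, ¬ E a b)
    have h6 : #(F.filter fun a => ¬ ∀ b ∈ F, ¬ E a b) ≤
        #((univ.filter fun e : V × V => E e.1 e.2).filter fun e => ({e.1, e.2} : Finset V) ⊆ F) := by
      have h7 : (F.filter fun a => ¬ ∀ b ∈ F, ¬ E a b) ⊆
          ((univ.filter fun e : V × V => E e.1 e.2).filter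
            fun e => ({e.1, e.2} : Finset V) ⊆ F).image Prod.fst := by
        intro a ha
        obtain ⟨haF, ha2⟩ := mem_filter.1 ha
        push Not at ha2
        obtain ⟨b, hb, hab⟩ := ha2
        refine mem_image.2 ⟨(a, b), mem_filter.2 ⟨mem_filter.2 ⟨mem_univ _, hab⟩, ?_⟩, rfl⟩
        intro v hv
        rcases mem_insert.1 hv with h | h
        · rw [h]; exact haF
        · rw [mem_singleton.1 h]; exact hb
      exact (card_le_card h7).trans card_image_le
    rw [sum_boole]
    have h8 : (#F : ℝ) ≤ ng F + #((univ.filter fun e : V × V => E e.1 e.2).filter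
        fun e => ({e.1, e.2} : Finset V) ⊆ F) := by
      exact_mod_cast (by omega : #F ≤ ng F + #((univ.filter fun e : V × V => E e.1 e.2).filter
        fun e => ({e.1, e.2} : Finset V) ⊆ F))
    linarith
  have h9 : ∑ F : Finset V, wt p F * (#F : ℝ) = p * Fintype.card V := by
    have e1 : ∀ F : Finset V, wt p F * (#F : ℝ) = ∑ v : V, if {v} ⊆ F then wt p F else 0 := by
      intro F
      simp only [singleton_subset_iff]
      rw [← sum_filter, sum_const, nsmul_eq_mul, mul_comm]
      congr 2
      rw [filter_mem_eq_inter, univ_inter]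
    rw [sum_congr rfl fun F _ => e1 F, sum_comm]
    have e2 : ∀ v : V, ∑ F : Finset V, (if {v} ⊆ F then wt p F else 0) = p := by
      intro v
      rw [← sum_filter, sum_superset, card_singleton, pow_one]
    rw [sum_congr rfl fun v _ => e2 v, sum_const, card_univ, nsmul_eq_mul, mul_comm]
  have h10 : ∑ F : Finset V, wt p F * (∑ e : V × V with E e.1 e.2,
      (if ({e.1, e.2} : Finset V) ⊆ F then (1 : ℝ) else 0)) =
      p ^ 2 * #(univ.filter fun e : V × V => E e.1 e.2) := by
    simp only [mul_sum, mul_ite, mul_one, mul_zero]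
    rw [sum_comm]
    have e2 : ∀ e ∈ univ.filter (fun e : V × V => E e.1 e.2),
        ∑ F : Finset V, (if ({e.1, e.2} : Finset V) ⊆ F then wt p F else 0) = p ^ 2 := by
      intro e he
      rw [← sum_filter, sum_superset, card_pair]
      intro h
      have := (mem_filter.1 he).2
      rw [h] at this
      exact hE _ this
    rw [sum_congr rfl e2, sum_const, nsmul_eq_mul, mul_comm]
  rw [← h9, ← h10, ← sum_sub_distrib]
  refine sum_le_sum fun F _ => ?_
  rw [← mul_sub]
  exact mul_le_mul_of_nonneg_left (h2 F) (wt_nonneg h0 h1 F)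

end Pool.Agent.Q146.RF
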