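import Pool.Agent.Q146.RF.Sat
import Pool.Agent.Q146.RF.Par

/-!
# Good pairs in dense and in sparse random families of subsets of `[N]^h`
-/

set_option autoImplicit false

namespace Pool.Agent.Q146.RF

open Finset Filter Topology

/-- The family `S` is good. -/
def Gd {h N : ℕ} (S : Finset (Finset (Fin h → Fin N))) : Prop :=
  ∃ A ∈ S, ∃ γ : Finset (Fin N), γ.Nonempty ∧ Disjoint A (pw h γ) ∧ A ∪ pw h γ ∈ S

lemma indep_iff {h N : ℕ} (S : Finset (Finset (Fin h → Fin N))) : Indep E S ↔ ¬ Gd S := by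
  constructor
  · rintro hI ⟨A, hA, γ, h1, h2, h3⟩
    exact hI A hA _ h3 ⟨γ, h1, h2, rfl⟩
  · rintro hG A hA B hB ⟨γ, h1, h2, rfl⟩
    exact hG ⟨A, hA, γ, h1, h2, hB⟩

/-- All densities above `θ` suffice. -/
def Abv (h : ℕ) (θ : ℝ) : Prop :=
  ∀ δ : ℝ, θ < δ → ∃ N : ℕ, 1 ≤ N ∧ ∀ S : Finset (Finset (Fin h → Fin N)),
    δ * (2 : ℝ) ^ (N ^ h) < #S → Gd S

/-- The exponent. -/
noncomputable def ex (h N : ℕ) : ℝ := Real.log N * Real.log N ^ (1 / (h : ℝ))

lemma tendsto_log : Tendsto (fun N : ℕ => Real.log N) atTop atTop :=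
  Real.tendsto_log_atTop.comp tendsto_natCast_atTop_atTop

lemma tendsto_root {h : ℕ} (hh : 1 ≤ h) :
    Tendsto (fun N : ℕ => Real.log N ^ (1 / (h : ℝ))) atTop atTop := by
  have : (0 : ℝ) < 1 / (h : ℝ) := by
    have : (0 : ℝ) < h := by exact_mod_cast hh
    positivity
  exact (tendsto_rpow_atTop this).comp tendsto_log

lemma tendsto_ex {h : ℕ} (hh : 1 ≤ h) : Tendsto (fun N : ℕ => ex h N) atTop atTop :=
  tendsto_log.atTop_mul_atTop₀ (tendsto_root hh)

lemma final_ineq {c l s K b : ℝ} (hl : 0 ≤ l) (hK : c * s / 2 ≤ K) (hb : b ≤ K * l / 4) :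
    c / 4 * (l * s) ≤ 3 * l / 4 * K - b := by
  have e1 : l * (c * s / 2) ≤ l * K := mul_le_mul_of_nonneg_left hK hl
  nlinarith

open Classical in
/-- Dense families have members of large degree. -/
theorem degree {h : ℕ} (hh : 2 ≤ h) {θ ρ : ℝ} (hθ0 : 0 ≤ θ) (hθ : θ < ρ) (ha : Abv h θ) :
    ∃ κ : ℝ, 0 < κ ∧ ∃ c : ℝ, 0 < c ∧ ∀ᶠ N : ℕ in atTop,
      ∀ U : Finset (Finset (Fin h → Fin N)), ρ * (2 : ℝ) ^ (N ^ h) < #U →
        ∃ v ∈ U, κ * Real.exp (c * ex (h - 1) N) ≤ #(U.filter (E v)) := by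
  set δ : ℝ := (θ + ρ) / 2 with hδ
  have hδ1 : θ < δ := by rw [hδ]; linarith
  have hδ2 : δ < ρ := by rw [hδ]; linarith
  obtain ⟨m, hm, hmG⟩ := ha δ hδ1
  set κ : ℝ := (ρ - δ) / 2 with hκ
  have hκ0 : 0 < κ := by rw [hκ]; linarith
  have hm1 : (1 : ℝ) ≤ m := by exact_mod_cast hm
  have hm0 : (0 : ℝ) < m := by linarith
  have hh' : 1 ≤ h - 1 := by omega
  have hh0 : (0 : ℝ) < ((h - 1 : ℕ) : ℝ) := by exact_mod_cast hh'
  set c₁ : ℝ := 1 / (4 * m ^ 2) with hc₁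
  have hc₁0 : 0 < c₁ := by positivity
  refine ⟨κ, hκ0, c₁ / 4, by positivity, ?_⟩
  -- eventual conditions
  have ev1 : ∀ᶠ N : ℕ in atTop, (1 : ℝ) ≤ Real.log N := tendsto_log.eventually_ge_atTop 1
  have ev2 : ∀ᶠ N : ℕ in atTop, Real.log N ≤ Real.exp (Real.log N / 4) := by
    have h1 : Tendsto (fun x : ℝ => x ^ 1 * Real.exp (-(1 / 4) * x)) atTop (𝓝 0) := by
      have := Real.tendsto_pow_mul_exp_neg_atTop_nhds_zero 1
      have h2 : Tendsto (fun x : ℝ => (1 / 4) * x) atTop atTop :=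
        tendsto_id.const_mul_atTop (by norm_num)
      have h3 := (this.comp h2).const_mul 4
      simp only [mul_zero] at h3
      refine h3.congr fun x => ?_
      simp only [Function.comp]
      ring_nf
    have h4 := (h1.comp tendsto_log).eventually (gt_mem_nhds (zero_lt_one))
    filter_upwards [h4] with N hN
    simp only [Function.comp, pow_one] at hN
    have h5 : Real.exp (-(1 / 4) * Real.log N) * Real.exp (Real.log N / 4) = 1 := by
      rw [← Real.exp_add]; ring_nf; exact Real.exp_zero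
    have h6 := Real.exp_pos (Real.log N / 4)
    nlinarith
  have ev3 : ∀ᶠ N : ℕ in atTop, Real.log N * Real.exp (-(Real.log N / 4)) ≤ κ ^ 2 := by
    have h1 : Tendsto (fun x : ℝ => x * Real.exp (-(x / 4))) atTop (𝓝 0) := by
      have := Real.tendsto_pow_mul_exp_neg_atTop_nhds_zero 1
      have h2 : Tendsto (fun x : ℝ => (1 / 4) * x) atTop atTop :=
        tendsto_id.const_mul_atTop (by norm_num)
      have h3 := (this.comp h2).const_mul 4
      simp only [mul_zero] at h3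
      refine h3.congr fun x => ?_
      simp only [Function.comp]
      ring_nf
    have h4 := (h1.comp tendsto_log).eventually (gt_mem_nhds (by positivity : (0 : ℝ) < κ ^ 2))
    filter_upwards [h4] with N hN
    exact hN.le
  have ev4 : ∀ᶠ N : ℕ in atTop, 2 / c₁ ≤ Real.log N ^ (1 / ((h - 1 : ℕ) : ℝ)) :=
    (tendsto_root hh').eventually_ge_atTop _
  filter_upwards [ev1, ev2, ev3, ev4, eventually_ge_atTop 1] with N h1 h2 h3 h4 hN1 U hU
  set ℓ : ℝ := Real.log N with hℓ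
  set s : ℝ := ℓ ^ (1 / ((h - 1 : ℕ) : ℝ)) with hs
  have hN0 : (0 : ℝ) < N := by exact_mod_cast hN1
  have hNe : (N : ℝ) = Real.exp ℓ := (Real.exp_log hN0).symm
  have hs0 : 0 ≤ s := Real.rpow_nonneg (by linarith) _
  have hsℓ : s ≤ ℓ := by
    calc s ≤ ℓ ^ (1 : ℝ) := Real.rpow_le_rpow_of_exponent_le h1 (by
          rw [div_le_one hh0]; exact_mod_cast hh')
      _ = ℓ := Real.rpow_one ℓ
  have hsh : s ^ (h - 1) = ℓ := by
    rw [hs, ← Real.rpow_natCast, ← Real.rpow_mul (by linarith), one_div_mul_cancel hh0.ne',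
      Real.rpow_one]
  set K : ℕ := ⌊c₁ * s⌋₊ with hK
  have hcs : 2 ≤ c₁ * s := by
    have := mul_le_mul_of_nonneg_left h4 hc₁0.le
    rwa [mul_div_cancel₀ _ hc₁0.ne'] at this
  have hKle : (K : ℝ) ≤ c₁ * s := Nat.floor_le (by linarith)
  have hKlt : c₁ * s < K + 1 := Nat.lt_floor_add_one _
  have hK1 : 1 ≤ K := by
    have : (1 : ℝ) < K + 1 := by linarith
    have : (0 : ℝ) < K := by linarith
    exact_mod_cast this
  have hKge : c₁ * s / 2 ≤ K := by linarith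
  set c₃ : ℝ := 1 / (4 * m) with hc₃
  have hc₃0 : 0 < c₃ := by positivity
  have hc₃1 : c₃ ≤ 1 / 4 := by
    rw [hc₃]
    exact div_le_div_of_nonneg_left (by norm_num) (by norm_num) (by linarith)
  have hmK : ((m * K : ℕ) : ℝ) ≤ c₃ * s := by
    push_cast
    calc (m : ℝ) * K ≤ m * (c₁ * s) := mul_le_mul_of_nonneg_left hKle hm0.le
      _ = c₃ * s := by rw [hc₁, hc₃]; field_simp
  have hmK' : ((m * K : ℕ) : ℝ) ≤ ℓ / 2 := by
    refine hmK.trans ?_
    calc c₃ * s ≤ 1 / 4 * ℓ := mul_le_mul hc₃1 hsℓ hs0 (by norm_num)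
      _ ≤ ℓ / 2 := by linarith
  have hmK1 : 1 ≤ m * K := Nat.mul_pos hm hK1
  have hmKr : (1 : ℝ) ≤ ((m * K : ℕ) : ℝ) := by exact_mod_cast hmK1
  -- the powers
  have e2pow : ∀ a : ℕ, (2 : ℝ) ^ a ≤ Real.exp a := by
    intro a
    calc (2 : ℝ) ^ a ≤ Real.exp 1 ^ a :=
          pow_le_pow_left₀ (by norm_num) (by
            have := Real.add_one_le_exp (1 : ℝ); linarith) _
      _ = Real.exp (a * 1) := by rw [Real.exp_nat_mul]
      _ = Real.exp a := by rw [mul_one]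
  have hp1 : (((m * K) ^ (h - 1) : ℕ) : ℝ) ≤ c₃ * ℓ := by
    rw [Nat.cast_pow]
    calc ((m * K : ℕ) : ℝ) ^ (h - 1) ≤ (c₃ * s) ^ (h - 1) :=
          pow_le_pow_left₀ (by positivity) hmK _
      _ = c₃ ^ (h - 1) * ℓ := by rw [mul_pow, hsh]
      _ ≤ c₃ ^ 1 * ℓ := by
          refine mul_le_mul_of_nonneg_right ?_ (by linarith)
          exact pow_le_pow_of_le_one hc₃0.le (by linarith) hh'
      _ = c₃ * ℓ := by rw [pow_one]
  have hp2 : (((m * K) ^ h : ℕ) : ℝ) ≤ K * ℓ / 4 := by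
    have e1 : (m * K) ^ h = (m * K) ^ (h - 1) * (m * K) := by
      rw [← pow_succ]; congr 1; omega
    rw [e1, Nat.cast_mul]
    calc (((m * K) ^ (h - 1) : ℕ) : ℝ) * ((m * K : ℕ) : ℝ) ≤ (c₃ * ℓ) * ((m * K : ℕ) : ℝ) :=
          mul_le_mul_of_nonneg_right hp1 (by positivity)
      _ = K * ℓ / 4 := by rw [hc₃]; push_cast; field_simp
  have hpow : (2 : ℝ) ^ ((m * K) ^ h) ≤ Real.exp (K * ℓ / 4) :=
    (e2pow _).trans (Real.exp_le_exp.2 hp2)
  have hpow1 : (2 : ℝ) ^ ((m * K) ^ (h - 1)) ≤ Real.exp (ℓ / 4) := by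
    refine (e2pow _).trans (Real.exp_le_exp.2 (hp1.trans ?_))
    have : c₃ * ℓ ≤ 1 / 4 * ℓ := mul_le_mul_of_nonneg_right hc₃1 (by linarith)
    linarith
  set L : ℕ := N / (m * K) with hL
  have hLge : Real.exp (3 * ℓ / 4) ≤ L := by
    have e1 : N < m * K * (L + 1) := Nat.lt_mul_div_succ N hmK1
    have e2 : (N : ℝ) < ((m * K : ℕ) : ℝ) * (L + 1) := by exact_mod_cast e1
    have e3 : (N : ℝ) ≤ ℓ / 2 * (L + 1) :=
      e2.le.trans (mul_le_mul_of_nonneg_right hmK' (by positivity))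
    have e4 : Real.exp ℓ = Real.exp (3 * ℓ / 4) * Real.exp (ℓ / 4) := by
      rw [← Real.exp_add]; ring_nf
    rw [hNe, e4] at e3
    have e5 : Real.exp (3 * ℓ / 4) * ℓ ≤ Real.exp (3 * ℓ / 4) * Real.exp (ℓ / 4) :=
      mul_le_mul_of_nonneg_left h2 (Real.exp_pos _).le
    have e6 : Real.exp (3 * ℓ / 4) * ℓ ≤ ℓ / 2 * (L + 1) := e5.trans e3
    have e7 : 2 * Real.exp (3 * ℓ / 4) ≤ L + 1 := by
      have : ℓ / 2 * (2 * Real.exp (3 * ℓ / 4)) ≤ ℓ / 2 * (L + 1) := by linarith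
      exact le_of_mul_le_mul_left this (by linarith)
    have e8 : 1 ≤ Real.exp (3 * ℓ / 4) := Real.one_le_exp (by linarith)
    linarith
  have hL1 : 1 ≤ L := by
    have : (1 : ℝ) ≤ L := le_trans (Real.one_le_exp (by linarith)) hLge
    exact_mod_cast this
  have hL0 : (0 : ℝ) < L := by exact_mod_cast hL1
  have hη : √(2 * ((m * K : ℕ) * 2 ^ ((m * K) ^ (h - 1)) / L)) ≤ κ := by
    rw [Real.sqrt_le_left hκ0.le]
    refine le_trans ?_ h3
    rw [← mul_div_assoc, div_le_iff₀ hL0]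
    calc 2 * (((m * K : ℕ) : ℝ) * 2 ^ ((m * K) ^ (h - 1))) ≤ 2 * (ℓ / 2 * Real.exp (ℓ / 4)) := by
          refine mul_le_mul_of_nonneg_left ?_ (by norm_num)
          exact mul_le_mul hmK' hpow1 (by positivity) (by linarith)
      _ ≤ ℓ * Real.exp (ℓ / 2) := by
          have : Real.exp (ℓ / 4) ≤ Real.exp (ℓ / 2) := Real.exp_le_exp.2 (by linarith)
          have := mul_le_mul_of_nonneg_left this (by linarith : 0 ≤ ℓ)
          linarith
      _ = ℓ * Real.exp (-(ℓ / 4)) * Real.exp (3 * ℓ / 4) := by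
          rw [mul_assoc, ← Real.exp_add]; ring_nf
      _ ≤ ℓ * Real.exp (-(ℓ / 4)) * L :=
          mul_le_mul_of_nonneg_left hLge (mul_nonneg (by linarith) (Real.exp_pos _).le)
  have hcard : Fintype.card ((Fin m × Fin K) × Fin L) ≤ Fintype.card (Fin N) := by
    simp only [Fintype.card_prod, Fintype.card_fin]
    exact Nat.mul_div_le N (m * K)
  obtain ⟨ι⟩ := Function.Embedding.nonempty_of_card_le hcard
  have hUne : U.Nonempty := by
    have h5 : 0 ≤ ρ * (2 : ℝ) ^ (N ^ h) := mul_nonneg (by linarith) (by positivity)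
    have h6 : (0 : ℝ) < #U := lt_of_le_of_lt h5 hU
    exact card_pos.1 (by exact_mod_cast h6)
  obtain ⟨B, hB, hdeg⟩ := supersat (by omega) hK1 hL1 ι.injective (δ := δ) (ρ := ρ) (by linarith)
    hmG U hUne hU.le
  refine ⟨B, hB, ?_⟩
  have e1 : κ * (L : ℝ) ^ K ≤ Real.exp (K * ℓ / 4) * #(U.filter (E B)) := by
    calc κ * (L : ℝ) ^ K
        ≤ (ρ - δ - √(2 * ((m * K : ℕ) * 2 ^ ((m * K) ^ (h - 1)) / L))) * (L : ℝ) ^ K := by
          apply mul_le_mul_of_nonneg_right _ (by positivity)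
          have : ρ - δ = 2 * κ := by rw [hκ]; ring
          linarith
      _ ≤ _ := hdeg
      _ ≤ _ := mul_le_mul_of_nonneg_right hpow (Nat.cast_nonneg _)
  have e2 : Real.exp (3 * ℓ / 4 * K) ≤ (L : ℝ) ^ K := by
    rw [mul_comm, Real.exp_nat_mul]
    exact pow_le_pow_left₀ (Real.exp_pos _).le hLge K
  have e3 : κ * Real.exp (3 * ℓ / 4 * K) ≤ Real.exp (K * ℓ / 4) * #(U.filter (E B)) :=
    (mul_le_mul_of_nonneg_left e2 hκ0.le).trans e1
  have e4 : Real.exp (3 * ℓ / 4 * K) =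
      Real.exp (K * ℓ / 4) * Real.exp (3 * ℓ / 4 * K - K * ℓ / 4) := by
    rw [← Real.exp_add]; ring_nf
  rw [e4, mul_left_comm] at e3
  have e5 := le_of_mul_le_mul_left e3 (Real.exp_pos _)
  refine le_trans (mul_le_mul_of_nonneg_left (Real.exp_le_exp.2 ?_) hκ0.le) e5
  exact final_ineq (by linarith) hKge le_rfl

lemma card_univ_fam (h N : ℕ) :
    (Fintype.card (Finset (Fin h → Fin N)) : ℝ) = 2 ^ (N ^ h) := by
  simp

open Classical in
/-- Sparse random families. -/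
theorem random_main {h : ℕ} (hh : 2 ≤ h) {θ θ' : ℝ} (hθ0 : 0 ≤ θ) (hθ : θ < θ') (hθ1 : θ' ≤ 1)
    (ha : Abv h θ) : ∃ c : ℝ, 0 < c ∧ ∀ᶠ N : ℕ in atTop, ∀ p : ℝ,
      Real.exp (-(c * ex (h - 1) N)) ≤ p → p ≤ 1 →
        Pr p (fun F : Finset (Finset (Fin h → Fin N)) => ∃ S ⊆ F, ¬ Gd S ∧
          θ' * (p * 2 ^ (N ^ h)) ≤ #S) ≤ Real.exp (-(c * (p * 2 ^ (N ^ h)))) := by
  set ρ : ℝ := (θ + θ') / 2 with hρ
  have hρ1 : θ < ρ := by rw [hρ]; linarith
  have hρ2 : ρ < θ' := by rw [hρ]; linarith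
  obtain ⟨κ, hκ, c₂, hc₂, hev⟩ := degree hh hθ0 hρ1 ha
  set ε : ℝ := θ' - ρ with hε
  have hε0 : 0 < ε := by rw [hε]; linarith
  have hε1 : ε ≤ 1 := by rw [hε]; linarith
  set Λ : ℝ := Real.log (16 / ε ^ 2) + 1 with hΛ
  have hΛ0 : 0 < Λ := by
    have : 0 ≤ Real.log (16 / ε ^ 2) := by
      apply Real.log_nonneg
      rw [le_div_iff₀ (by positivity)]
      nlinarith
    linarith
  set c : ℝ := min (c₂ / 2) (ε ^ 2 / 8) with hc
  have hc0 : 0 < c := lt_min (by positivity) (by positivity)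
  refine ⟨c, hc0, ?_⟩
  have ev2 : ∀ᶠ N : ℕ in atTop, Λ / (κ * (ε ^ 2 / 16)) ≤ Real.exp (c₂ / 2 * ex (h - 1) N) := by
    have h1 : Tendsto (fun N : ℕ => Real.exp (c₂ / 2 * ex (h - 1) N)) atTop atTop :=
      Real.tendsto_exp_atTop.comp ((tendsto_ex (by omega : 1 ≤ h - 1)).const_mul_atTop (by positivity))
    exact h1.eventually_ge_atTop _
  have ev3 : ∀ᶠ N : ℕ in atTop, 0 ≤ ex (h - 1) N := (tendsto_ex (by omega : 1 ≤ h - 1)).eventually_ge_atTop 0
  filter_upwards [hev, ev2, ev3] with N hN h2 h3 p hp hp1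
  have hp0 : 0 < p := lt_of_lt_of_le (Real.exp_pos _) hp
  set n : ℝ := (2 : ℝ) ^ (N ^ h) with hn
  have hn0 : 0 < n := by positivity
  set D : ℝ := κ * Real.exp (c₂ * ex (h - 1) N) with hD
  have hD0 : 0 < D := by positivity
  have hcard := card_univ_fam h N
  have hd : ∀ U : Finset (Finset (Fin h → Fin N)), ρ * Fintype.card (Finset (Fin h → Fin N)) < #U →
      ∃ v ∈ U, ⌈D⌉₊ ≤ #(U.filter (E v)) := by
    intro U hU
    rw [hcard] at hU
    obtain ⟨v, hv, hv2⟩ := hN U hU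
    exact ⟨v, hv, Nat.ceil_le.2 hv2⟩
  have hq : ∀ t : ℕ, t * ⌈D⌉₊ ≤ Fintype.card (Finset (Fin h → Fin N)) → t ≤ ⌊n / D⌋₊ := by
    intro t ht
    apply Nat.le_floor
    rw [le_div_iff₀ hD0]
    have e1 : ((t * ⌈D⌉₊ : ℕ) : ℝ) ≤ n := by
      rw [hn, ← hcard]; exact_mod_cast ht
    push_cast at e1
    exact (mul_le_mul_of_nonneg_left (Nat.le_ceil D) (by positivity)).trans e1
  have hqp : (⌊n / D⌋₊ : ℝ) * (Real.log (16 / (θ' - ρ) ^ 2) + 1) ≤
      (θ' - ρ) ^ 2 / 16 * (p * Fintype.card (Finset (Fin h → Fin N))) := by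
    rw [hcard]
    change (⌊n / D⌋₊ : ℝ) * Λ ≤ ε ^ 2 / 16 * (p * n)
    have e1 : (⌊n / D⌋₊ : ℝ) ≤ n / D := Nat.floor_le (by positivity)
    have e2 : Real.exp (-(c₂ / 2 * ex (h - 1) N)) ≤ p := by
      refine le_trans (Real.exp_le_exp.2 ?_) hp
      have : c ≤ c₂ / 2 := min_le_left _ _
      nlinarith
    have e3 : Λ ≤ κ * (ε ^ 2 / 16) * Real.exp (c₂ / 2 * ex (h - 1) N) := by
      rwa [div_le_iff₀' (by positivity)] at h2
    have e4 : Real.exp (c₂ * ex (h - 1) N) * Real.exp (-(c₂ / 2 * ex (h - 1) N)) =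
        Real.exp (c₂ / 2 * ex (h - 1) N) := by
      rw [← Real.exp_add]; ring_nf
    calc (⌊n / D⌋₊ : ℝ) * Λ ≤ n / D * (κ * (ε ^ 2 / 16) * Real.exp (c₂ / 2 * ex (h - 1) N)) :=
          mul_le_mul e1 e3 hΛ0.le (by positivity)
      _ = ε ^ 2 / 16 * (Real.exp (-(c₂ / 2 * ex (h - 1) N)) * n) := by
          rw [← e4, hD]
          field_simp
      _ ≤ _ := by gcongr
  have hmain := random_concrete (V := Finset (Fin h → Fin N)) E (ρ := ρ) (θ := θ') (p := p)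
    (by linarith) hρ2 hθ1 hp0.le hp1 hd hq hqp
  rw [hcard] at hmain
  have e5 : Real.exp (-((θ' - ρ) ^ 2 / 8 * (p * 2 ^ (N ^ h)))) ≤
      Real.exp (-(c * (p * 2 ^ (N ^ h)))) := by
    apply Real.exp_le_exp.2
    have : c ≤ ε ^ 2 / 8 := min_le_right _ _
    have : c * (p * n) ≤ ε ^ 2 / 8 * (p * n) := mul_le_mul_of_nonneg_right this (by positivity)
    linarith
  refine le_trans (Pr_mono hp0.le hp1 fun F hF => ?_) (hmain.trans e5)
  obtain ⟨S, hS1, hS2, hS3⟩ := hF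
  exact ⟨S, hS1, (indep_iff S).2 hS2, hS3⟩

open Classical in
/-- The number of families which are not good. -/
theorem count_main {h : ℕ} (hh : 2 ≤ h) {θ : ℝ} (hθ0 : 0 ≤ θ) :
    Abv h θ ↔ ∀ θ' : ℝ, θ < θ' → ∀ᶠ N : ℕ in atTop,
      (#(univ.filter fun S : Finset (Finset (Fin h → Fin N)) => ¬ Gd S) : ℝ) ≤
        (2 : ℝ) ^ (θ' * 2 ^ (N ^ h)) := by
  constructor
  · intro ha θ' hθ
    set ρ : ℝ := (θ + θ') / 2 with hρ
    have hρ1 : θ < ρ := by rw [hρ]; linarith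
    have hρ2 : ρ < θ' := by rw [hρ]; linarith
    obtain ⟨κ, hκ, c₂, hc₂, hev⟩ := degree hh hθ0 hρ1 ha
    have hl2 : 0 < Real.log 2 := Real.log_pos (by norm_num)
    set y : ℝ := (θ' - ρ) * Real.log 2 / 2 with hy
    have hy0 : 0 < y := by
      have : 0 < θ' - ρ := by linarith
      positivity
    set x : ℝ := min y 1 with hx
    have hx0 : 0 < x := lt_min hy0 one_pos
    have hx1 : x ≤ 1 := min_le_right _ _
    have ev2 : ∀ᶠ N : ℕ in atTop, Real.log (1 / x) / (κ * y) ≤ Real.exp (c₂ * ex (h - 1) N) := by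
      have h1 : Tendsto (fun N : ℕ => Real.exp (c₂ * ex (h - 1) N)) atTop atTop :=
        Real.tendsto_exp_atTop.comp ((tendsto_ex (by omega : 1 ≤ h - 1)).const_mul_atTop (by positivity))
      exact h1.eventually_ge_atTop _
    filter_upwards [hev, ev2] with N hN h2
    set n : ℝ := (2 : ℝ) ^ (N ^ h) with hn
    have hn0 : 0 < n := by positivity
    set D : ℝ := κ * Real.exp (c₂ * ex (h - 1) N) with hD
    have hD0 : 0 < D := by positivity
    have hcard := card_univ_fam h N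
    have hd : ∀ U : Finset (Finset (Fin h → Fin N)),
        ρ * Fintype.card (Finset (Fin h → Fin N)) < #U →
        ∃ v ∈ U, ⌈D⌉₊ ≤ #(U.filter (E v)) := by
      intro U hU
      rw [hcard] at hU
      obtain ⟨v, hv, hv2⟩ := hN U hU
      exact ⟨v, hv, Nat.ceil_le.2 hv2⟩
    have hq : ∀ t : ℕ, t * ⌈D⌉₊ ≤ Fintype.card (Finset (Fin h → Fin N)) → t ≤ ⌊n / D⌋₊ := by
      intro t ht
      apply Nat.le_floor
      rw [le_div_iff₀ hD0]
      have e1 : ((t * ⌈D⌉₊ : ℕ) : ℝ) ≤ n := by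
        rw [hn, ← hcard]; exact_mod_cast ht
      push_cast at e1
      exact (mul_le_mul_of_nonneg_left (Nat.le_ceil D) (by positivity)).trans e1
    have h3 := count_indep (V := Finset (Fin h → Fin N)) E (ρ := ρ) (x := x) hx0 hx1 hd hq
    rw [hcard] at h3
    have h4 : (univ.filter fun S : Finset (Finset (Fin h → Fin N)) => ¬ Gd S) =
        univ.filter fun S : Finset (Finset (Fin h → Fin N)) => Indep E S := by
      ext S
      simp only [mem_filter, mem_univ, true_and, indep_iff]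
    rw [h4]
    refine h3.trans ?_
    have e1 : (1 / x) ^ ⌊n / D⌋₊ = Real.exp (⌊n / D⌋₊ * Real.log (1 / x)) := by
      rw [← Real.rpow_natCast, Real.rpow_def_of_pos (by positivity), mul_comm]
    have e2 : ∀ z : ℝ, (2 : ℝ) ^ z = Real.exp (Real.log 2 * z) := fun z =>
      Real.rpow_def_of_pos (by norm_num) z
    rw [e1, e2, e2, ← Real.exp_add, ← Real.exp_add]
    apply Real.exp_le_exp.2
    have hlx : 0 ≤ Real.log (1 / x) := Real.log_nonneg (one_le_one_div hx0 hx1)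
    have e3 : (⌊n / D⌋₊ : ℝ) * Real.log (1 / x) ≤ y * n := by
      have e4 : (⌊n / D⌋₊ : ℝ) ≤ n / D := Nat.floor_le (by positivity)
      have e5 : Real.log (1 / x) ≤ κ * y * Real.exp (c₂ * ex (h - 1) N) := by
        rwa [div_le_iff₀' (by positivity)] at h2
      calc (⌊n / D⌋₊ : ℝ) * Real.log (1 / x)
          ≤ n / D * (κ * y * Real.exp (c₂ * ex (h - 1) N)) := mul_le_mul e4 e5 hlx (by positivity)
        _ = y * n := by rw [hD]; field_simp
    have e6 : x * n ≤ y * n := mul_le_mul_of_nonneg_right (min_le_left _ _) hn0.le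
    have e7 : y * n + y * n = Real.log 2 * (θ' * n) - Real.log 2 * (ρ * n) := by
      rw [hy]; ring
    change _ + x * n + Real.log 2 * (ρ * n) ≤ Real.log 2 * (θ' * n)
    linarith
  · intro hc δ hδ
    obtain ⟨N₀, hN₀⟩ := eventually_atTop.1 (hc δ hδ)
    refine ⟨N₀ + 1, by omega, fun S hS => ?_⟩
    by_contra hG
    have h1 := hN₀ (N₀ + 1) (by omega)
    have h2 : S.powerset ⊆ univ.filter fun S : Finset (Finset (Fin h → Fin (N₀ + 1))) =>
        ¬ Gd S := by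
      intro T hT
      refine mem_filter.2 ⟨mem_univ _, ?_⟩
      rintro ⟨A, hA, γ, g1, g2, g3⟩
      exact hG ⟨A, mem_powerset.1 hT hA, γ, g1, g2, mem_powerset.1 hT g3⟩
    have h3 : (2 : ℝ) ^ #S ≤ (2 : ℝ) ^ (δ * 2 ^ ((N₀ + 1) ^ h)) := by
      refine le_trans ?_ h1
      have := card_le_card h2
      rw [card_powerset] at this
      exact_mod_cast this
    rw [← Real.rpow_natCast] at h3
    have h4 := (Real.rpow_le_rpow_left_iff (by norm_num : (1 : ℝ) < 2)).1 h3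
    linarith

end Pool.Agent.Q146.RF
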