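import Pool.Agent.Q146.RF.Main

/-!
# Very sparse random families contain large families which are not good
-/

set_option autoImplicit false

namespace Pool.Agent.Q146.RF

open Finset Filter Topology

open Classical in
/-- The largest number of members of a subfamily which is not good. -/
noncomputable def ng {h N : ℕ} (F : Finset (Finset (Fin h → Fin N))) : ℕ :=
  (F.powerset.filter fun S => ¬ Gd S).sup card

lemma card_pw (h : ℕ) {N : ℕ} (γ : Finset (Fin N)) : #(pw h γ) = #γ ^ h := by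
  simp [pw, Fintype.card_piFinset]

lemma E_irrefl {h N : ℕ} (A : Finset (Fin h → Fin N)) : ¬ E A A := by
  rintro ⟨γ, ⟨a, ha⟩, h2, h3⟩
  have h4 : (fun _ => a) ∈ pw h γ := mem_pw.2 fun _ => ha
  have h5 : (fun _ => a) ∈ A := by rw [h3]; exact mem_union_right _ h4
  exact disjoint_left.1 h2 h5 h4

open Classical in
lemma card_disj {h N : ℕ} (D : Finset (Fin h → Fin N)) :
    (#(univ.filter fun A : Finset (Fin h → Fin N) => Disjoint A D) : ℝ) =
      2 ^ (N ^ h) * (1 / 2) ^ #D := by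
  have h1 : (univ.filter fun A : Finset (Fin h → Fin N) => Disjoint A D) = Dᶜ.powerset := by
    ext A
    rw [mem_filter, mem_powerset, subset_compl_iff_disjoint_right]
    simp
  rw [h1, card_powerset]
  have h2 : #(Dᶜ) + #D = N ^ h := by
    rw [card_compl_add_card]; simp
  rw [← h2, pow_add]
  push_cast
  rw [mul_assoc, ← mul_pow]
  norm_num

open Classical in
/-- The number of pairs. -/
lemma card_edges {h N : ℕ} :
    (#(univ.filter fun e : Finset (Fin h → Fin N) × Finset (Fin h → Fin N) => E e.1 e.2) : ℝ) ≤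
      2 ^ (N ^ h) * ∑ k ∈ range (N + 1), (N.choose k : ℝ) *
        (if k = 0 then 0 else (1 / 2) ^ (k ^ h)) := by
  have h1 : (univ.filter fun e : Finset (Fin h → Fin N) × Finset (Fin h → Fin N) => E e.1 e.2) ⊆
      ((univ : Finset (Finset (Fin N))).filter fun γ => γ.Nonempty).biUnion fun γ =>
        (univ.filter fun A : Finset (Fin h → Fin N) => Disjoint A (pw h γ)).image
          fun A => (A, A ∪ pw h γ) := by
    intro e he
    obtain ⟨γ, g1, g2, g3⟩ := (mem_filter.1 he).2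
    refine mem_biUnion.2 ⟨γ, mem_filter.2 ⟨mem_univ _, g1⟩, mem_image.2 ⟨e.1,
      mem_filter.2 ⟨mem_univ _, g2⟩, ?_⟩⟩
    rw [← g3]
  calc (#(univ.filter fun e : Finset (Fin h → Fin N) × Finset (Fin h → Fin N) => E e.1 e.2) : ℝ)
      ≤ ∑ γ : Finset (Fin N) with γ.Nonempty,
          (#(univ.filter fun A : Finset (Fin h → Fin N) => Disjoint A (pw h γ)) : ℝ) := by
        refine le_trans (b := ((∑ γ : Finset (Fin N) with γ.Nonempty,
          #((univ.filter fun A : Finset (Fin h → Fin N) => Disjoint A (pw h γ)).image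
            fun A => (A, A ∪ pw h γ)) : ℕ) : ℝ)) ?_ ?_
        · exact_mod_cast (card_le_card h1).trans card_biUnion_le
        · rw [Nat.cast_sum]
          exact sum_le_sum fun γ _ => by exact_mod_cast card_image_le
    _ = ∑ γ ∈ (univ : Finset (Fin N)).powerset,
          2 ^ (N ^ h) * (if #γ = 0 then 0 else (1 / 2 : ℝ) ^ (#γ ^ h)) := by
        rw [powerset_univ, sum_filter]
        refine sum_congr rfl fun γ _ => ?_
        by_cases hγ : γ.Nonempty
        · rw [if_pos hγ, if_neg (card_pos.2 hγ).ne', card_disj, card_pw]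
        · rw [if_neg hγ]
          rw [not_nonempty_iff_eq_empty] at hγ
          simp [hγ]
    _ = _ := by
        rw [← mul_sum, sum_powerset_apply_card
          (fun k => if k = 0 then (0 : ℝ) else (1 / 2 : ℝ) ^ (k ^ h))]
        simp only [card_univ, Fintype.card_fin, nsmul_eq_mul]

/-- The sum over the sizes. -/
lemma sum_sizes {h N : ℕ} (hh : 2 ≤ h) (hN : 1 ≤ N) :
    ∑ k ∈ range (N + 1), (N.choose k : ℝ) * (if k = 0 then 0 else (1 / 2) ^ (k ^ h)) ≤
      2 * Real.exp (2 * ex (h - 1) N) := by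
  set ℓ : ℝ := Real.log N with hℓ
  have hN0 : (0 : ℝ) < N := by exact_mod_cast hN
  have hℓ0 : 0 ≤ ℓ := Real.log_nonneg (by exact_mod_cast hN)
  have hex : 0 ≤ ex (h - 1) N := mul_nonneg hℓ0 (Real.rpow_nonneg hℓ0 _)
  have hl2 : (1 : ℝ) / 2 ≤ Real.log 2 := by
    have := Real.log_two_gt_d9
    linarith
  have h1 : ∀ k : ℕ, 1 ≤ k → (N : ℝ) ^ k * (1 / 2) ^ (k ^ h) ≤ Real.exp (2 * ex (h - 1) N) := by
    intro k hk
    have hk0 : (0 : ℝ) < k := by exact_mod_cast hk
    have e1 : (N : ℝ) ^ k = Real.exp (k * ℓ) := by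
      rw [Real.exp_nat_mul, Real.exp_log hN0]
    have e2 : (1 / 2 : ℝ) ^ (k ^ h) = Real.exp (-(Real.log 2 * (k : ℝ) ^ h)) := by
      rw [← Real.rpow_natCast, Real.rpow_def_of_pos (by norm_num), one_div, Real.log_inv]
      push_cast
      ring_nf
    rw [e1, e2, ← Real.exp_add]
    apply Real.exp_le_exp.2
    have hkh : (k : ℝ) ^ h = k * (k : ℝ) ^ (h - 1) := by
      rw [← pow_succ']; congr 1; omega
    rcases le_or_gt ℓ (Real.log 2 * (k : ℝ) ^ (h - 1)) with h2 | h2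
    · have : k * ℓ ≤ k * (Real.log 2 * (k : ℝ) ^ (h - 1)) := mul_le_mul_of_nonneg_left h2 hk0.le
      rw [hkh]
      nlinarith
    · have h3 : (k : ℝ) ^ (h - 1) ≤ 2 * ℓ := by
        have : 1 / 2 * (k : ℝ) ^ (h - 1) ≤ Real.log 2 * (k : ℝ) ^ (h - 1) :=
          mul_le_mul_of_nonneg_right hl2 (by positivity)
        linarith
      have hh1 : (0 : ℝ) < ((h - 1 : ℕ) : ℝ) := by
        have : 0 < h - 1 := by omega
        exact_mod_cast this
      have hh1' : (1 : ℝ) ≤ ((h - 1 : ℕ) : ℝ) := by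
        have : 1 ≤ h - 1 := by omega
        exact_mod_cast this
      have h4 : (k : ℝ) ≤ 2 * ℓ ^ (1 / ((h - 1 : ℕ) : ℝ)) := by
        have e3 : (k : ℝ) = ((k : ℝ) ^ (h - 1)) ^ (1 / ((h - 1 : ℕ) : ℝ)) := by
          rw [← Real.rpow_natCast, ← Real.rpow_mul hk0.le, mul_one_div_cancel hh1.ne',
            Real.rpow_one]
        have e4 : ((k : ℝ) ^ (h - 1)) ^ (1 / ((h - 1 : ℕ) : ℝ)) ≤
            (2 * ℓ) ^ (1 / ((h - 1 : ℕ) : ℝ)) :=
          Real.rpow_le_rpow (by positivity) h3 (by positivity)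
        have e5 : (2 * ℓ) ^ (1 / ((h - 1 : ℕ) : ℝ)) =
            2 ^ (1 / ((h - 1 : ℕ) : ℝ)) * ℓ ^ (1 / ((h - 1 : ℕ) : ℝ)) :=
          Real.mul_rpow (by norm_num) hℓ0
        have e6 : (2 : ℝ) ^ (1 / ((h - 1 : ℕ) : ℝ)) ≤ 2 := by
          calc (2 : ℝ) ^ (1 / ((h - 1 : ℕ) : ℝ)) ≤ 2 ^ (1 : ℝ) :=
                Real.rpow_le_rpow_of_exponent_le (by norm_num) (by
                  rw [div_le_one hh1]; exact hh1')
            _ = 2 := Real.rpow_one 2
        calc (k : ℝ) = ((k : ℝ) ^ (h - 1)) ^ (1 / ((h - 1 : ℕ) : ℝ)) := e3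
          _ ≤ (2 * ℓ) ^ (1 / ((h - 1 : ℕ) : ℝ)) := e4
          _ = 2 ^ (1 / ((h - 1 : ℕ) : ℝ)) * ℓ ^ (1 / ((h - 1 : ℕ) : ℝ)) := e5
          _ ≤ 2 * ℓ ^ (1 / ((h - 1 : ℕ) : ℝ)) :=
              mul_le_mul_of_nonneg_right e6 (Real.rpow_nonneg hℓ0 _)
      have h5 : (k : ℝ) * ℓ ≤ 2 * ex (h - 1) N := by
        rw [ex]
        calc (k : ℝ) * ℓ ≤ (2 * ℓ ^ (1 / ((h - 1 : ℕ) : ℝ))) * ℓ :=
              mul_le_mul_of_nonneg_right h4 hℓ0
          _ = _ := by ring
      have h6 : 0 ≤ Real.log 2 * (k : ℝ) ^ h := by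
        have := Real.log_pos (by norm_num : (1 : ℝ) < 2)
        positivity
      linarith
  have h2 : ∀ k ∈ range (N + 1), (N.choose k : ℝ) * (if k = 0 then 0 else (1 / 2) ^ (k ^ h)) ≤
      Real.exp (2 * ex (h - 1) N) * (if k = 0 then 0 else 1 / (k.factorial : ℝ)) := by
    intro k _
    split_ifs with hk
    · simp
    · have h3 := Nat.choose_le_pow_div (α := ℝ) k N
      have h4 := h1 k (Nat.one_le_iff_ne_zero.2 hk)
      have h5 : (0 : ℝ) < k.factorial := by exact_mod_cast k.factorial_pos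
      calc (N.choose k : ℝ) * (1 / 2) ^ (k ^ h) ≤ ((N : ℝ) ^ k / k.factorial) * (1 / 2) ^ (k ^ h) :=
            mul_le_mul_of_nonneg_right h3 (by positivity)
        _ = ((N : ℝ) ^ k * (1 / 2) ^ (k ^ h)) * (1 / k.factorial) := by ring
        _ ≤ _ := mul_le_mul_of_nonneg_right h4 (by positivity)
  refine (sum_le_sum h2).trans ?_
  rw [← mul_sum, mul_comm]
  refine mul_le_mul_of_nonneg_right ?_ (Real.exp_pos _).le
  have h3 : ∑ k ∈ range (N + 1), (if k = 0 then 0 else 1 / (k.factorial : ℝ)) + 1 ≤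
      Real.exp 1 := by
    have h4 := Real.sum_le_exp_of_nonneg (x := 1) (by norm_num) (N + 1)
    have h5 : ∑ k ∈ range (N + 1), (if k = 0 then 0 else 1 / (k.factorial : ℝ)) + 1 =
        ∑ k ∈ range (N + 1), (1 : ℝ) ^ k / k.factorial := by
      rw [sum_range_succ' (fun k => if k = 0 then 0 else 1 / (k.factorial : ℝ)),
        sum_range_succ' (fun k => (1 : ℝ) ^ k / k.factorial)]
      simp
    rw [h5]; exact h4
  have := Real.exp_one_lt_d9
  linarith

open Classical in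
/-- **The sparse range.** -/
theorem neg_main {h N : ℕ} (hh : 2 ≤ h) (hN : 1 ≤ N) {p : ℝ} (h0 : 0 ≤ p) (h1 : p ≤ 1) :
    (1 - 2 * p * Real.exp (2 * ex (h - 1) N)) * (p * 2 ^ (N ^ h)) ≤
      ∑ F : Finset (Finset (Fin h → Fin N)), wt p F * ng F := by
  have h2 := first_moment (V := Finset (Fin h → Fin N)) E E_irrefl h0 h1 ng
    (fun F S hS hI => le_sup (f := card) (mem_filter.2 ⟨mem_powerset.2 hS, (indep_iff S).1 hI⟩))
  refine le_trans ?_ h2
  rw [card_univ_fam]
  have h3 : (#(univ.filter fun e : Finset (Fin h → Fin N) × Finset (Fin h → Fin N) =>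
      E e.1 e.2) : ℝ) ≤ 2 ^ (N ^ h) * (2 * Real.exp (2 * ex (h - 1) N)) :=
    card_edges.trans (mul_le_mul_of_nonneg_left (sum_sizes hh hN) (by positivity))
  have h4 := mul_le_mul_of_nonneg_left h3 (sq_nonneg p)
  have h5 : (1 - 2 * p * Real.exp (2 * ex (h - 1) N)) * (p * 2 ^ (N ^ h)) =
      p * 2 ^ (N ^ h) - p ^ 2 * (2 ^ (N ^ h) * (2 * Real.exp (2 * ex (h - 1) N))) := by ring
  rw [h5]
  exact sub_le_sub_left h4 _

end Pool.Agent.Q146.RF
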