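import Pool.Agent.Q146.RF.Sup

/-!
# Supersaturation: dense families contain many good pairs with large sets
-/

set_option autoImplicit false

namespace Pool.Agent.Q146.RF

open Finset

/-- `γ^h` -/
def pw {N : ℕ} (h : ℕ) (γ : Finset (Fin N)) : Finset (Fin h → Fin N) :=
  Fintype.piFinset fun _ => γ

lemma mem_pw {h N : ℕ} {γ : Finset (Fin N)} {c : Fin h → Fin N} : c ∈ pw h γ ↔ ∀ i, c i ∈ γ :=
  Fintype.mem_piFinset

/-- The pairs of the problem. -/
def E {h N : ℕ} (A B : Finset (Fin h → Fin N)) : Prop :=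
  ∃ γ : Finset (Fin N), γ.Nonempty ∧ Disjoint A (pw h γ) ∧ B = A ∪ pw h γ

lemma pw_inj {h N : ℕ} (hh : 1 ≤ h) {γ γ' : Finset (Fin N)} (e : pw h γ = pw h γ') : γ = γ' := by
  have key : ∀ δ δ' : Finset (Fin N), pw h δ = pw h δ' → δ ⊆ δ' := by
    intro δ δ' e a ha
    have h1 : (fun _ => a) ∈ pw h δ := mem_pw.2 fun _ => ha
    rw [e] at h1
    exact mem_pw.1 h1 ⟨0, hh⟩
  exact subset_antisymm (key _ _ e) (key _ _ e.symm)

section

variable {h m K L N : ℕ}

/-- The pattern of the `h`-tuples over a set of `h`-tuples of indices. -/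
def pat (ω : Finset (Fin h → Fin m)) : Finset (Fin h → Fin m × Fin K) :=
  univ.filter fun t => (fun i => (t i).1) ∈ ω

lemma mem_pat {ω : Finset (Fin h → Fin m)} {t : Fin h → Fin m × Fin K} :
    t ∈ pat ω ↔ (fun i => (t i).1) ∈ ω := by simp [pat]

/-- The union of the embedded pieces with indices in `g`. -/
def gam (ι : (Fin m × Fin K) × Fin L → Fin N) (x : Fin m × Fin K → Fin L) (g : Finset (Fin m)) :
    Finset (Fin N) :=
  (univ.filter fun t : Fin m × Fin K => t.1 ∈ g).image fun t => ι (t, x t)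

lemma pw_gam (ι : (Fin m × Fin K) × Fin L → Fin N) (x : Fin m × Fin K → Fin L)
    (g : Finset (Fin m)) :
    pw h (gam ι x g) = (pat (pw h g)).image (cell ι x) := by
  ext c
  rw [mem_pw, mem_image]
  constructor
  · intro hc
    have h1 : ∀ i, ∃ t : Fin m × Fin K, t.1 ∈ g ∧ ι (t, x t) = c i := by
      intro i
      obtain ⟨t, ht, hti⟩ := mem_image.1 (hc i)
      exact ⟨t, (mem_filter.1 ht).2, hti⟩
    choose t ht hti using h1
    exact ⟨t, mem_pat.2 (mem_pw.2 ht), funext hti⟩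
  · rintro ⟨t, ht, rfl⟩ i
    exact mem_image.2 ⟨t i, mem_filter.2 ⟨mem_univ _, mem_pw.1 (mem_pat.1 ht) i⟩, rfl⟩

lemma gam_nonempty (hK : 1 ≤ K) (ι : (Fin m × Fin K) × Fin L → Fin N) (x : Fin m × Fin K → Fin L)
    {g : Finset (Fin m)} (hg : g.Nonempty) : (gam ι x g).Nonempty := by
  obtain ⟨s, hs⟩ := hg
  exact ⟨ι ((s, ⟨0, hK⟩), x (s, ⟨0, hK⟩)),
    mem_image.2 ⟨(s, ⟨0, hK⟩), mem_filter.2 ⟨mem_univ _, hs⟩, rfl⟩⟩

/-- `gam` determines the values on one piece. -/
lemma gam_det {ι : (Fin m × Fin K) × Fin L → Fin N} (hι : Function.Injective ι)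
    {x y : Fin m × Fin K → Fin L} {g g' : Finset (Fin m)} (e : gam ι x g = gam ι y g')
    {s : Fin m} (hs : s ∈ g) (k : Fin K) : y (s, k) = x (s, k) := by
  have h1 : ι ((s, k), x (s, k)) ∈ gam ι x g :=
    mem_image.2 ⟨(s, k), mem_filter.2 ⟨mem_univ _, hs⟩, rfl⟩
  rw [e] at h1
  obtain ⟨t, -, ht⟩ := mem_image.1 h1
  have h2 := hι ht
  have h3 := (Prod.mk.inj h2).1
  have h4 := (Prod.mk.inj h2).2
  rw [h3] at h4
  exact h4

open Classical in
/-- The embeddings with a given union of pieces are few. -/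
lemma card_gam {ι : (Fin m × Fin K) × Fin L → Fin N} (hι : Function.Injective ι)
    (γ : Finset (Fin N)) :
    #(univ.filter fun x : Fin m × Fin K → Fin L => ∃ g : Finset (Fin m), g.Nonempty ∧
      gam ι x g = γ) * L ^ K ≤ L ^ (m * K) := by
  rcases (univ.filter fun x : Fin m × Fin K → Fin L => ∃ g : Finset (Fin m), g.Nonempty ∧
      gam ι x g = γ).eq_empty_or_nonempty with he | ⟨x₀, hx₀⟩
  · rw [he]; simp
  · obtain ⟨g₀, ⟨s, hs⟩, hg₀⟩ := (mem_filter.1 hx₀).2
    have h1 := card_fix_set (L := L) (univ.image fun k : Fin K => ((s, k) : Fin m × Fin K)) x₀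
    rw [card_image_of_injective _ (fun k k' hk => (Prod.mk.inj hk).2), card_univ,
      Fintype.card_fin, Fintype.card_prod, Fintype.card_fin, Fintype.card_fin] at h1
    rw [← h1]
    refine Nat.mul_le_mul_right _ (card_le_card ?_)
    intro x hx
    obtain ⟨g, -, hg⟩ := (mem_filter.1 hx).2
    refine mem_filter.2 ⟨mem_univ _, fun t ht => ?_⟩
    obtain ⟨k, -, rfl⟩ := mem_image.1 ht
    exact gam_det hι (hg₀.trans hg.symm) hs k

/-- The embedded copy over the base `A`. -/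
def emb (ι : (Fin m × Fin K) × Fin L → Fin N) (x : Fin m × Fin K → Fin L)
    (A : Finset (Fin h → Fin N)) (ω : Finset (Fin h → Fin m)) : Finset (Fin h → Fin N) :=
  A ∪ (pat ω).image (cell ι x)

/-- All embedded cells. -/
def cells (h : ℕ) (ι : (Fin m × Fin K) × Fin L → Fin N) (x : Fin m × Fin K → Fin L) :
    Finset (Fin h → Fin N) := univ.image (cell ι x)

lemma emb_sdiff (ι : (Fin m × Fin K) × Fin L → Fin N) (x : Fin m × Fin K → Fin L)
    {A : Finset (Fin h → Fin N)} (hA : Disjoint A (cells h ι x)) (ω : Finset (Fin h → Fin m)) :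
    emb ι x A ω \ cells h ι x = A := by
  ext c
  simp only [emb, mem_sdiff, mem_union]
  constructor
  · rintro ⟨h1 | h1, h2⟩
    · exact h1
    · exact absurd (image_subset_image (subset_univ _) h1) h2
  · intro hc
    exact ⟨Or.inl hc, disjoint_left.1 hA hc⟩

lemma emb_agree {ι : (Fin m × Fin K) × Fin L → Fin N} (hι : Function.Injective ι)
    (x : Fin m × Fin K → Fin L)
    {A : Finset (Fin h → Fin N)} (hA : Disjoint A (cells h ι x)) (ω : Finset (Fin h → Fin m))
    (t : Fin h → Fin m × Fin K) : cell ι x t ∈ emb ι x A ω ↔ t ∈ pat ω := by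
  have h1 : cell ι x t ∈ cells h ι x := mem_image_of_mem _ (mem_univ _)
  constructor
  · intro h2
    rcases mem_union.1 h2 with h3 | h3
    · exact absurd h1 (disjoint_left.1 hA h3)
    · exact ((cell_inj hι x).mem_finset_image).1 h3
  · intro h2
    exact mem_union_right _ (mem_image_of_mem _ h2)

lemma emb_union {ι : (Fin m × Fin K) × Fin L → Fin N} (x : Fin m × Fin K → Fin L)
    (A : Finset (Fin h → Fin N)) (ω : Finset (Fin h → Fin m)) (g : Finset (Fin m)) :
    emb ι x A (ω ∪ pw h g) = emb ι x A ω ∪ pw h (gam ι x g) := by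
  have h1 : (pat (ω ∪ pw h g) : Finset (Fin h → Fin m × Fin K)) = pat ω ∪ pat (pw h g) := by
    ext t
    simp only [mem_union, mem_pat]
  rw [emb, h1, image_union, ← pw_gam, emb, union_assoc]

lemma emb_disjoint {ι : (Fin m × Fin K) × Fin L → Fin N} (hι : Function.Injective ι)
    (x : Fin m × Fin K → Fin L)
    {A : Finset (Fin h → Fin N)} (hA : Disjoint A (cells h ι x)) {ω : Finset (Fin h → Fin m)}
    {g : Finset (Fin m)} (hg : Disjoint ω (pw h g)) :
    Disjoint (emb ι x A ω) (pw h (gam ι x g)) := by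
  rw [disjoint_left]
  intro c hc hc'
  rw [pw_gam] at hc'
  obtain ⟨t, ht, rfl⟩ := mem_image.1 hc'
  have h1 := (emb_agree hι x hA ω t).1 hc
  exact disjoint_left.1 hg (mem_pat.1 h1) (mem_pat.1 ht)

open Classical in
/-- **Supersaturation.** -/
theorem supersat (hh : 1 ≤ h) (hK : 1 ≤ K) (hL : 1 ≤ L)
    {ι : (Fin m × Fin K) × Fin L → Fin N} (hι : Function.Injective ι) {δ ρ : ℝ} (hδ0 : 0 ≤ δ)
    (hδ : ∀ S : Finset (Finset (Fin h → Fin m)), δ * 2 ^ (m ^ h) < #S →
      ∃ A ∈ S, ∃ g : Finset (Fin m), g.Nonempty ∧ Disjoint A (pw h g) ∧ A ∪ pw h g ∈ S)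
    (S : Finset (Finset (Fin h → Fin N))) (hS : S.Nonempty) (hρ : ρ * 2 ^ (N ^ h) ≤ #S) :
    ∃ B ∈ S, (ρ - δ - √(2 * ((m * K : ℕ) * 2 ^ ((m * K) ^ (h - 1)) / L))) * (L : ℝ) ^ K ≤
      2 ^ ((m * K) ^ h) * #(S.filter (E B)) := by
  by_contra hcon
  push Not at hcon
  set k : ℕ := (m * K) ^ h with hk
  set η : ℝ := √(2 * ((m * K : ℕ) * 2 ^ ((m * K) ^ (h - 1)) / L)) with hη
  have hL0 : (0 : ℝ) < L := by exact_mod_cast hL
  have hcT : Fintype.card (Fin m × Fin K) = m * K := by simp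
  -- abbreviations
  let Px : (Fin m × Fin K → Fin L) → Finset (Finset (Fin h → Fin N)) := fun x =>
    univ.filter fun A => Disjoint A (cells h ι x)
  let S' : (Fin m × Fin K → Fin L) → Finset (Fin h → Fin N) → Finset (Finset (Fin h → Fin m)) :=
    fun x A => univ.filter fun ω => emb ι x A ω ∈ S
  let Q : (Fin m × Fin K → Fin L) → Finset (Fin h → Fin N) → Prop := fun x B =>
    ∃ g : Finset (Fin m), g.Nonempty ∧ Disjoint B (pw h (gam ι x g)) ∧
      B ∪ pw h (gam ι x g) ∈ S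
  let Gx : (Fin m × Fin K → Fin L) → Finset (Finset (Fin h → Fin N)) := fun x =>
    (Px x).filter fun A => δ * 2 ^ (m ^ h) < #(S' x A)
  -- the number of bases
  have hP : ∀ x, (#(Px x) : ℝ) * 2 ^ k = 2 ^ (N ^ h) := by
    intro x
    have h1 := agree_card (cell (h := h) ι x) (cell_inj hι x) ∅
    have h2 : (univ.filter fun B : Finset (Fin h → Fin N) =>
        ∀ i, cell (h := h) ι x i ∈ B ↔ i ∈ (∅ : Finset (Fin h → Fin m × Fin K))) = Px x := by
      ext B
      simp only [Px, mem_filter, mem_univ, true_and, notMem_empty, iff_false, cells,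
        disjoint_right, mem_image, forall_exists_index, forall_apply_eq_imp_iff]
    rw [h2] at h1
    simp only [Fintype.card_fun, Fintype.card_fin, Fintype.card_prod] at h1
    exact_mod_cast h1
  -- the total number
  have h1 : ∀ (x : Fin m × Fin K → Fin L) (ω : Finset (Fin h → Fin m)),
      #((Px x).filter fun A => emb ι x A ω ∈ S) =
      #(S.filter fun B => ∀ t, cell ι x t ∈ B ↔ t ∈ pat (K := K) ω) := by
    intro x ω
    refine card_nbij' (fun A => emb ι x A ω) (fun B => B \ cells h ι x) ?_ ?_ ?_ ?_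
    · intro A hA
      simp only [Px, coe_filter, mem_filter, mem_univ, true_and, Set.mem_ofPred_eq] at hA ⊢
      exact ⟨hA.2, emb_agree hι x hA.1 ω⟩
    · intro B hB
      simp only [Px, coe_filter, mem_filter, mem_univ, true_and, Set.mem_ofPred_eq] at hB ⊢
      refine ⟨sdiff_disjoint, ?_⟩
      have h2 : emb ι x (B \ cells h ι x) ω = B := by
        ext c
        simp only [emb, mem_union, mem_sdiff, mem_image]
        constructor
        · rintro (h3 | ⟨t, ht, rfl⟩)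
          · exact h3.1
          · exact (hB.2 t).2 ht
        · intro hc
          by_cases hcc : c ∈ cells h ι x
          · obtain ⟨t, -, rfl⟩ := mem_image.1 hcc
            exact Or.inr ⟨t, (hB.2 t).1 hc, rfl⟩
          · exact Or.inl ⟨hc, hcc⟩
      rw [h2]; exact hB.1
    · intro A hA
      simp only [Px, coe_filter, mem_filter, mem_univ, true_and, Set.mem_ofPred_eq] at hA
      exact emb_sdiff ι x hA.1 ω
    · intro B hB
      simp only [coe_filter, Set.mem_ofPred_eq] at hB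
      ext c
      simp only [emb, mem_union, mem_sdiff, mem_image]
      constructor
      · rintro (h3 | ⟨t, ht, rfl⟩)
        · exact h3.1
        · exact (hB.2 t).2 ht
      · intro hc
        by_cases hcc : c ∈ cells h ι x
        · obtain ⟨t, -, rfl⟩ := mem_image.1 hcc
          exact Or.inr ⟨t, (hB.2 t).1 hc, rfl⟩
        · exact Or.inl ⟨hc, hcc⟩
  have h2 : ∑ x, ∑ A ∈ Px x, (#(S' x A) : ℝ) =
      ∑ ω : Finset (Fin h → Fin m), ∑ B ∈ S, X ι (pat (K := K) ω) B := by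
    have e1 : ∀ x, ∑ A ∈ Px x, (#(S' x A) : ℝ) = ∑ ω : Finset (Fin h → Fin m),
        (#(S.filter fun B => ∀ t, cell ι x t ∈ B ↔ t ∈ pat (K := K) ω) : ℝ) := by
      intro x
      simp only [← h1, S', card_filter, Nat.cast_sum]
      rw [sum_comm]
    rw [sum_congr rfl fun x _ => e1 x, sum_comm]
    refine sum_congr rfl fun ω _ => ?_
    simp only [X, card_filter, Nat.cast_sum]
    rw [sum_comm]
  -- lower bound
  have h3 : (2 : ℝ) ^ (m ^ h) * ((L : ℝ) ^ (m * K) * (#S - 2 ^ (N ^ h) * η)) ≤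
      2 ^ k * ∑ x, ∑ A ∈ Px x, (#(S' x A) : ℝ) := by
    rw [h2, mul_sum]
    calc (2 : ℝ) ^ (m ^ h) * ((L : ℝ) ^ (m * K) * (#S - 2 ^ (N ^ h) * η))
        = ∑ _ω : Finset (Fin h → Fin m), (L : ℝ) ^ (m * K) * (#S - 2 ^ (N ^ h) * η) := by
          rw [sum_const, card_univ, nsmul_eq_mul]; simp
      _ ≤ _ := by
          refine sum_le_sum fun ω _ => ?_
          have := second_moment hh hL hι (pat (K := K) ω) S
          rw [hcT] at this
          rw [mul_sum]
          exact this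
  -- upper bound
  have h4 : ∀ x, ∑ A ∈ Px x, (#(S' x A) : ℝ) ≤
      2 ^ (m ^ h) * #(Gx x) + δ * 2 ^ (m ^ h) * #(Px x) := by
    intro x
    have e1 : ∀ A ∈ Px x, (#(S' x A) : ℝ) ≤
        (if δ * 2 ^ (m ^ h) < #(S' x A) then 2 ^ (m ^ h) else 0) + δ * 2 ^ (m ^ h) := by
      intro A _
      split_ifs with hA
      · have : #(S' x A) ≤ 2 ^ (m ^ h) := by
          have := card_le_univ (S' x A)
          simpa using this
        have e2 : (#(S' x A) : ℝ) ≤ 2 ^ (m ^ h) := by exact_mod_cast this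
        have : 0 ≤ δ * (2 : ℝ) ^ (m ^ h) := by positivity
        linarith
      · push Not at hA
        linarith
    refine (sum_le_sum e1).trans ?_
    rw [sum_add_distrib, ← sum_filter, sum_const, sum_const, nsmul_eq_mul, nsmul_eq_mul]
    apply le_of_eq
    ring
  -- good bases give good pairs
  have h5 : ∀ x, #(Gx x) ≤ #(S.filter (Q x)) := by
    intro x
    have e1 : ∀ A ∈ Gx x, ∃ ω : Finset (Fin h → Fin m), emb ι x A ω ∈ S.filter (Q x) := by
      intro A hA
      obtain ⟨hA1, hA2⟩ := mem_filter.1 hA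
      have hA3 : Disjoint A (cells h ι x) := (mem_filter.1 hA1).2
      obtain ⟨ω, hω, g, hg, hd, hu⟩ := hδ (S' x A) hA2
      refine ⟨ω, mem_filter.2 ⟨(mem_filter.1 hω).2, g, hg, emb_disjoint hι x hA3 hd, ?_⟩⟩
      rw [← emb_union]
      exact (mem_filter.1 hu).2
    choose! f hf using e1
    refine card_le_card_of_injOn (fun A => emb ι x A (f A)) (fun A hA => hf A hA) ?_
    intro A hA A' hA' e2
    have hA3 : Disjoint A (cells h ι x) := (mem_filter.1 (mem_filter.1 hA).1).2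
    have hA3' : Disjoint A' (cells h ι x) := (mem_filter.1 (mem_filter.1 hA').1).2
    have e3 : emb ι x A (f A) = emb ι x A' (f A') := e2
    rw [← emb_sdiff ι x hA3 (f A), ← emb_sdiff ι x hA3' (f A'), e3]
  -- few embeddings for each pair
  have h6 : ∀ B, #(univ.filter fun x => Q x B) * L ^ K ≤ #(S.filter (E B)) * L ^ (m * K) := by
    intro B
    let Γ : Finset (Finset (Fin N)) := univ.filter fun γ => γ.Nonempty ∧ Disjoint B (pw h γ) ∧
      B ∪ pw h γ ∈ S
    have e1 : #Γ ≤ #(S.filter (E B)) := by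
      refine card_le_card_of_injOn (fun γ => B ∪ pw h γ) ?_ ?_
      · intro γ hγ
        obtain ⟨hγ1, hγ2, hγ3⟩ := (mem_filter.1 hγ).2
        exact mem_coe.2 (mem_filter.2 ⟨hγ3, γ, hγ1, hγ2, rfl⟩)
      · intro γ hγ γ' hγ' e
        obtain ⟨-, hγ2, -⟩ := (mem_filter.1 hγ).2
        obtain ⟨-, hγ2', -⟩ := (mem_filter.1 hγ').2
        have e' : B ∪ pw h γ = B ∪ pw h γ' := e
        apply pw_inj hh
        have k1 : (B ∪ pw h γ) \ B = pw h γ := by
          rw [union_sdiff_left, Finset.sdiff_eq_self_iff_disjoint]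
          exact hγ2.symm
        have k2 : (B ∪ pw h γ') \ B = pw h γ' := by
          rw [union_sdiff_left, Finset.sdiff_eq_self_iff_disjoint]
          exact hγ2'.symm
        rw [← k1, ← k2, e']
    have e2 : (univ.filter fun x => Q x B) ⊆ Γ.biUnion fun γ =>
        univ.filter fun x : Fin m × Fin K → Fin L => ∃ g : Finset (Fin m), g.Nonempty ∧
          gam ι x g = γ := by
      intro x hx
      obtain ⟨g, hg, hg1, hg2⟩ := (mem_filter.1 hx).2
      exact mem_biUnion.2 ⟨gam ι x g, mem_filter.2 ⟨mem_univ _, gam_nonempty hK ι x hg, hg1, hg2⟩,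
        mem_filter.2 ⟨mem_univ _, g, hg, rfl⟩⟩
    calc #(univ.filter fun x => Q x B) * L ^ K
        ≤ (∑ γ ∈ Γ, #(univ.filter fun x : Fin m × Fin K → Fin L =>
            ∃ g : Finset (Fin m), g.Nonempty ∧ gam ι x g = γ)) * L ^ K :=
          Nat.mul_le_mul_right _ ((card_le_card e2).trans card_biUnion_le)
      _ = ∑ γ ∈ Γ, #(univ.filter fun x : Fin m × Fin K → Fin L =>
            ∃ g : Finset (Fin m), g.Nonempty ∧ gam ι x g = γ) * L ^ K := by rw [sum_mul]
      _ ≤ ∑ _γ ∈ Γ, L ^ (m * K) := sum_le_sum fun γ _ => card_gam hι γ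
      _ = #Γ * L ^ (m * K) := by rw [sum_const, smul_eq_mul]
      _ ≤ _ := Nat.mul_le_mul_right _ e1
  -- assemble
  set D : ℝ := (ρ - δ - η) * (L : ℝ) ^ K with hD
  have hsumG : (∑ x, (#(Gx x) : ℝ)) * (L : ℝ) ^ K * 2 ^ k < L ^ (m * K) * (2 ^ (N ^ h) * D) := by
    have e1 : (∑ x, (#(Gx x) : ℝ)) ≤ ∑ B ∈ S, (#(univ.filter fun x => Q x B) : ℝ) := by
      calc (∑ x, (#(Gx x) : ℝ)) ≤ ∑ x, (#(S.filter (Q x)) : ℝ) :=
            sum_le_sum fun x _ => by exact_mod_cast h5 x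
        _ = _ := by
            simp only [card_filter, Nat.cast_sum]
            rw [sum_comm]
    have hDpos : 0 < D := by
      obtain ⟨B, hB⟩ := hS
      have := hcon B hB
      exact lt_of_le_of_lt (by positivity) this
    calc (∑ x, (#(Gx x) : ℝ)) * (L : ℝ) ^ K * 2 ^ k
        ≤ (∑ B ∈ S, (#(univ.filter fun x => Q x B) : ℝ)) * (L : ℝ) ^ K * 2 ^ k := by gcongr
      _ = ∑ B ∈ S, (#(univ.filter fun x => Q x B) : ℝ) * (L : ℝ) ^ K * 2 ^ k := by
          rw [sum_mul, sum_mul]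
      _ ≤ ∑ B ∈ S, ((#(S.filter (E B)) : ℝ) * (L : ℝ) ^ (m * K)) * 2 ^ k := by
          refine sum_le_sum fun B _ => ?_
          refine mul_le_mul_of_nonneg_right ?_ (by positivity)
          exact_mod_cast h6 B
      _ < ∑ _B ∈ S, (L : ℝ) ^ (m * K) * D := by
          refine sum_lt_sum_of_nonempty hS fun B hB => ?_
          have := hcon B hB
          calc ((#(S.filter (E B)) : ℝ) * (L : ℝ) ^ (m * K)) * 2 ^ k
              = (L : ℝ) ^ (m * K) * (2 ^ k * #(S.filter (E B))) := by ring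
            _ < _ := mul_lt_mul_of_pos_left this (by positivity)
      _ = #S * ((L : ℝ) ^ (m * K) * D) := by rw [sum_const, nsmul_eq_mul]
      _ ≤ 2 ^ (N ^ h) * ((L : ℝ) ^ (m * K) * D) := by
          refine mul_le_mul_of_nonneg_right ?_ (by positivity)
          have : #S ≤ 2 ^ (N ^ h) := by
            have := card_le_univ S
            simpa using this
          exact_mod_cast this
      _ = _ := by ring
  have hsumP : (∑ x, (#(Px x) : ℝ)) * 2 ^ k = L ^ (m * K) * 2 ^ (N ^ h) := by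
    rw [sum_mul, sum_congr rfl fun x _ => hP x, sum_const, card_univ, nsmul_eq_mul]
    simp
  have h7 : ∑ x, ∑ A ∈ Px x, (#(S' x A) : ℝ) ≤
      2 ^ (m ^ h) * ∑ x, (#(Gx x) : ℝ) + δ * 2 ^ (m ^ h) * ∑ x, (#(Px x) : ℝ) := by
    rw [mul_sum, mul_sum, ← sum_add_distrib]
    exact sum_le_sum fun x _ => h4 x
  have h8 : (2 : ℝ) ^ (m ^ h) * ((L : ℝ) ^ (m * K) * (#S - 2 ^ (N ^ h) * η)) ≤
      2 ^ (m ^ h) * ((∑ x, (#(Gx x) : ℝ)) * 2 ^ k + δ * (L ^ (m * K) * 2 ^ (N ^ h))) := by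
    refine h3.trans ?_
    calc 2 ^ k * ∑ x, ∑ A ∈ Px x, (#(S' x A) : ℝ)
        ≤ 2 ^ k * (2 ^ (m ^ h) * ∑ x, (#(Gx x) : ℝ) + δ * 2 ^ (m ^ h) * ∑ x, (#(Px x) : ℝ)) :=
          mul_le_mul_of_nonneg_left h7 (by positivity)
      _ = _ := by rw [← hsumP]; ring
  have h9 := le_of_mul_le_mul_left h8 (by positivity)
  have h10 : (L : ℝ) ^ (m * K) * (2 ^ (N ^ h) * (ρ - δ - η)) ≤ (∑ x, (#(Gx x) : ℝ)) * 2 ^ k := by
    have : (L : ℝ) ^ (m * K) * (ρ * 2 ^ (N ^ h)) ≤ (L : ℝ) ^ (m * K) * #S :=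
      mul_le_mul_of_nonneg_left hρ (by positivity)
    nlinarith
  have h11 : (L : ℝ) ^ (m * K) * (2 ^ (N ^ h) * D) ≤
      (∑ x, (#(Gx x) : ℝ)) * (L : ℝ) ^ K * 2 ^ k := by
    calc (L : ℝ) ^ (m * K) * (2 ^ (N ^ h) * D)
        = ((L : ℝ) ^ (m * K) * (2 ^ (N ^ h) * (ρ - δ - η))) * (L : ℝ) ^ K := by rw [hD]; ring
      _ ≤ ((∑ x, (#(Gx x) : ℝ)) * 2 ^ k) * (L : ℝ) ^ K :=
          mul_le_mul_of_nonneg_right h10 (by positivity)
      _ = _ := by ring
  exact absurd hsumG (not_lt.2 h11)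

end

end Pool.Agent.Q146.RF
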