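import Pool.Agent.Q146.RF.Cont

/-!
# Second moments of random embedded patterns
-/

set_option autoImplicit false

namespace Pool.Agent.Q146.RF

open Finset

section Agree

variable {I J C : Type*} [Fintype I] [Fintype J] [Fintype C] [DecidableEq I] [DecidableEq J]
  [DecidableEq C]

open Classical in
/-- The number of sets with prescribed intersection with the range of an injective map. -/
lemma agree_card (g : I → C) (hg : Function.Injective g) (W : Finset I) :
    #(univ.filter fun B : Finset C => ∀ i, g i ∈ B ↔ i ∈ W) * 2 ^ Fintype.card I =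
      2 ^ Fintype.card C := by
  have h1 := sum_prod (V := C) (fun c => if c ∈ (Wᶜ).image g then 0 else 1)
    (fun c => if c ∈ W.image g then 0 else 1)
  have h2 : ∀ B : Finset C, (∏ c ∈ B, (if c ∈ (Wᶜ).image g then (0 : ℝ) else 1)) *
      ∏ c ∈ Bᶜ, (if c ∈ W.image g then (0 : ℝ) else 1) =
      if (∀ i, g i ∈ B ↔ i ∈ W) then 1 else 0 := by
    intro B
    split_ifs with h
    · rw [prod_eq_one, prod_eq_one, one_mul]
      · intro c hc
        rw [if_neg]
        intro hcW
        obtain ⟨i, hi, rfl⟩ := mem_image.1 hcW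
        exact (mem_compl.1 hc) ((h i).2 hi)
      · intro c hc
        rw [if_neg]
        intro hcW
        obtain ⟨i, hi, rfl⟩ := mem_image.1 hcW
        exact (mem_compl.1 hi) ((h i).1 hc)
    · push Not at h
      obtain ⟨i, hi⟩ := h
      rcases hi with ⟨hi1, hi2⟩ | ⟨hi1, hi2⟩
      · have : ∏ c ∈ B, (if c ∈ (Wᶜ).image g then (0 : ℝ) else 1) = 0 :=
          prod_eq_zero hi1 (if_pos (mem_image_of_mem g (mem_compl.2 hi2)))
        rw [this, zero_mul]
      · have : ∏ c ∈ Bᶜ, (if c ∈ W.image g then (0 : ℝ) else 1) = 0 :=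
          prod_eq_zero (mem_compl.2 hi1) (if_pos (mem_image_of_mem g hi2))
        rw [this, mul_zero]
  simp only [h2] at h1
  rw [sum_boole] at h1
  have h3 : ∏ c : C, ((if c ∈ (Wᶜ).image g then (0 : ℝ) else 1) +
      if c ∈ W.image g then 0 else 1) = 2 ^ (Fintype.card C - Fintype.card I) := by
    have h4 : ∀ c : C, ((if c ∈ (Wᶜ).image g then (0 : ℝ) else 1) +
        if c ∈ W.image g then 0 else 1) = if c ∈ (univ.image g)ᶜ then 2 else 1 := by
      intro c
      by_cases hc : c ∈ univ.image g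
      · obtain ⟨i, -, rfl⟩ := mem_image.1 hc
        have e1 : g i ∈ (Wᶜ).image g ↔ i ∉ W := by
          rw [hg.mem_finset_image, mem_compl]
        have e2 : g i ∈ W.image g ↔ i ∈ W := by rw [hg.mem_finset_image]
        have e3 : ¬ (g i ∈ (univ.image g)ᶜ) := by simp
        rw [if_neg e3]
        by_cases hi : i ∈ W
        · rw [if_neg (by rw [e1]; simpa using hi), if_pos (e2.2 hi)]; norm_num
        · rw [if_pos (e1.2 hi), if_neg (by rw [e2]; exact hi)]; norm_num
      · have e1 : c ∉ (Wᶜ).image g := fun h => hc (image_subset_image (subset_univ _) h)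
        have e2 : c ∉ W.image g := fun h => hc (image_subset_image (subset_univ _) h)
        rw [if_neg e1, if_neg e2, if_pos (mem_compl.2 hc)]; norm_num
    rw [prod_congr rfl fun c _ => h4 c, prod_ite_mem, univ_inter, prod_const, card_compl,
      card_image_of_injective _ hg, card_univ]
  rw [h3] at h1
  have h5 : #(univ.filter fun B : Finset C => ∀ i, g i ∈ B ↔ i ∈ W) =
      2 ^ (Fintype.card C - Fintype.card I) := by exact_mod_cast h1
  rw [h5, ← pow_add, Nat.sub_add_cancel (Fintype.card_le_of_injective g hg)]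

end Agree

section Moment

variable {T C : Type*} [Fintype T] [DecidableEq T] [Fintype C] [DecidableEq C] {L : ℕ}

/-- The number of functions with a prescribed value. -/
lemma card_fix (t : T) (a : Fin L) :
    #(univ.filter fun x : T → Fin L => x t = a) * L = L ^ Fintype.card T := by
  have h1 : (univ.filter fun x : T → Fin L => x t = a) =
      Fintype.piFinset (fun s => if s = t then {a} else univ) := by
    ext x
    simp only [mem_filter, mem_univ, true_and, Fintype.mem_piFinset]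
    constructor
    · intro hx s
      by_cases hs : s = t
      · subst hs; simp [hx]
      · simp [hs]
    · intro hx
      have := hx t
      simpa using this
  rw [h1, Fintype.card_piFinset]
  have h2 : ∀ s : T, #(if s = t then ({a} : Finset (Fin L)) else univ) =
      if s = t then 1 else L := by
    intro s
    split_ifs <;> simp
  simp only [h2]
  rw [prod_ite, prod_const_one, prod_const, one_mul]
  have h3 : #(univ.filter fun s : T => ¬ s = t) + 1 = Fintype.card T := by
    have e : (univ.filter fun s : T => ¬ s = t) = univ.erase t := by ext; simp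
    have : 1 ≤ Fintype.card T := Fintype.card_pos_iff.2 ⟨t⟩
    rw [e, card_erase_of_mem (mem_univ t), card_univ]
    omega
  rw [← h3, pow_succ]

/-- The number of functions with prescribed values on a set. -/
lemma card_fix_set (Q : Finset T) (x₀ : T → Fin L) :
    #(univ.filter fun x : T → Fin L => ∀ t ∈ Q, x t = x₀ t) * L ^ #Q = L ^ Fintype.card T := by
  have h1 : (univ.filter fun x : T → Fin L => ∀ t ∈ Q, x t = x₀ t) =
      Fintype.piFinset (fun s => if s ∈ Q then {x₀ s} else univ) := by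
    ext x
    simp only [mem_filter, mem_univ, true_and, Fintype.mem_piFinset]
    constructor
    · intro hx s
      by_cases hs : s ∈ Q
      · simp [hs, hx s hs]
      · simp [hs]
    · intro hx t ht
      have := hx t
      simpa [ht] using this
  rw [h1, Fintype.card_piFinset]
  have h2 : ∀ s : T, #(if s ∈ Q then ({x₀ s} : Finset (Fin L)) else univ) =
      if s ∈ Qᶜ then L else 1 := by
    intro s
    by_cases hs : s ∈ Q <;> simp [hs]
  simp only [h2]
  rw [prod_ite_mem, univ_inter, prod_const, ← pow_add, card_compl,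
    Nat.sub_add_cancel (card_le_univ Q)]

/-- The embedded cell. -/
def cell {h N : ℕ} (ι : T × Fin L → Fin N) (x : T → Fin L) (t : Fin h → T) : Fin h → Fin N :=
  fun i => ι (t i, x (t i))

omit [Fintype T] [DecidableEq T] in
lemma cell_inj {h N : ℕ} {ι : T × Fin L → Fin N} (hι : Function.Injective ι) (x : T → Fin L) :
    Function.Injective (cell (h := h) ι x) := by
  intro t t' htt
  funext i
  have := hι (congrFun htt i)
  exact (Prod.mk.inj this).1

/-- The number of embeddings which agree with the pattern `W` on `B`. -/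
noncomputable def X {h N : ℕ} (ι : T × Fin L → Fin N) (W : Finset (Fin h → T))
    (B : Finset (Fin h → Fin N)) : ℝ :=
  #(univ.filter fun x : T → Fin L => ∀ t, cell ι x t ∈ B ↔ t ∈ W)

lemma sum_X {h N : ℕ} {ι : T × Fin L → Fin N} (hι : Function.Injective ι)
    (W : Finset (Fin h → T)) :
    ∑ B, (2 : ℝ) ^ (Fintype.card T ^ h) * X ι W B =
      (L : ℝ) ^ Fintype.card T * 2 ^ (N ^ h) := by
  have h1 : ∀ x : T → Fin L, (#(univ.filter fun B : Finset (Fin h → Fin N) =>
      ∀ t, cell ι x t ∈ B ↔ t ∈ W) : ℝ) * 2 ^ (Fintype.card T ^ h) = 2 ^ (N ^ h) := by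
    intro x
    have := agree_card (cell (h := h) ι x) (cell_inj hι x) W
    simp only [Fintype.card_fun, Fintype.card_fin] at this
    exact_mod_cast this
  rw [← mul_sum]
  have h2 : ∑ B : Finset (Fin h → Fin N), X ι W B = ∑ x : T → Fin L,
      (#(univ.filter fun B : Finset (Fin h → Fin N) => ∀ t, cell ι x t ∈ B ↔ t ∈ W) : ℝ) := by
    simp only [X, card_filter, Nat.cast_sum]
    rw [sum_comm]
  rw [h2, mul_sum]
  rw [sum_congr rfl fun x _ => (mul_comm _ _).trans (h1 x)]
  simp

/-- Two embeddings: the number of sets which agree with the pattern on both. -/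
lemma both_card {h N : ℕ} {ι : T × Fin L → Fin N} (hι : Function.Injective ι)
    (W : Finset (Fin h → T)) (x y : T → Fin L) :
    #(univ.filter fun B : Finset (Fin h → Fin N) => (∀ t, cell ι x t ∈ B ↔ t ∈ W) ∧
      ∀ t, cell ι y t ∈ B ↔ t ∈ W) * 4 ^ (Fintype.card T ^ h) ≤
      2 ^ (N ^ h) * 2 ^ (#(univ.filter fun t => x t = y t) ^ h) := by
  classical
  set J : Finset T := univ.filter fun t => x t = y t with hJ
  set P : Finset (Fin h → T) := Fintype.piFinset fun _ => J with hP
  let g : {t : Fin h → T // t ∉ P} ⊕ (Fin h → T) → (Fin h → Fin N) :=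
    Sum.elim (fun t => cell ι x t.1) (cell ι y)
  have hg : Function.Injective g := by
    refine Function.Injective.sumElim ((cell_inj hι x).comp Subtype.val_injective)
      (cell_inj hι y) ?_
    rintro ⟨t, ht⟩ t' htt
    apply ht
    rw [hP, Fintype.mem_piFinset]
    intro i
    have h0 := hι (congrFun htt i)
    have h3 := (Prod.mk.inj h0).1
    have h4 := (Prod.mk.inj h0).2
    rw [hJ, mem_filter]
    refine ⟨mem_univ _, ?_⟩
    have h3' : t i = t' i := h3
    have h4' : x (t i) = y (t' i) := h4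
    rw [h4', h3']
  have h1 : #(univ.filter fun B : Finset (Fin h → Fin N) => ∀ i, g i ∈ B ↔
      i ∈ (univ.filter fun t : {t : Fin h → T // t ∉ P} => t.1 ∈ W).disjSum W) *
      2 ^ Fintype.card ({t : Fin h → T // t ∉ P} ⊕ (Fin h → T)) =
      2 ^ Fintype.card (Fin h → Fin N) := by
    convert agree_card g hg
      ((univ.filter fun t : {t : Fin h → T // t ∉ P} => t.1 ∈ W).disjSum W)
  have h2 : (univ.filter fun B : Finset (Fin h → Fin N) => (∀ t, cell ι x t ∈ B ↔ t ∈ W) ∧
      ∀ t, cell ι y t ∈ B ↔ t ∈ W) ⊆ univ.filter fun B : Finset (Fin h → Fin N) =>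
        ∀ i, g i ∈ B ↔
          i ∈ (univ.filter fun t : {t : Fin h → T // t ∉ P} => t.1 ∈ W).disjSum W := by
    intro B hB
    simp only [mem_filter, mem_univ, true_and] at hB
    obtain ⟨hB1, hB2⟩ := hB
    simp only [mem_filter, mem_univ, true_and]
    rintro (t | t)
    · simp only [g, Sum.elim_inl, inl_mem_disjSum, mem_filter, mem_univ, true_and]
      exact hB1 t.1
    · simp only [g, Sum.elim_inr, inr_mem_disjSum]
      exact hB2 t
  have hPc : #P = #J ^ h := by rw [hP, Fintype.card_piFinset]; simp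
  have h3 : Fintype.card {t : Fin h → T // t ∉ P} + #P = Fintype.card T ^ h := by
    rw [Fintype.card_subtype_compl, Fintype.card_coe]
    have e1 : Fintype.card (Fin h → T) = Fintype.card T ^ h := by simp
    have e2 : #P ≤ Fintype.card (Fin h → T) := card_le_univ P
    omega
  have h4 : (4 : ℕ) ^ (Fintype.card T ^ h) =
      2 ^ Fintype.card ({t : Fin h → T // t ∉ P} ⊕ (Fin h → T)) * 2 ^ (#J ^ h) := by
    rw [← pow_add, Fintype.card_sum, ← hPc]
    have e1 : Fintype.card (Fin h → T) = Fintype.card T ^ h := by simp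
    rw [e1, show (4 : ℕ) = 2 ^ 2 by norm_num, ← pow_mul]
    congr 1
    omega
  rw [h4, ← mul_assoc]
  refine Nat.mul_le_mul_right _ ?_
  have h5 : Fintype.card (Fin h → Fin N) = N ^ h := by simp
  rw [← h5, ← h1]
  exact Nat.mul_le_mul_right _ (card_le_card h2)

/-- The sum over the second embedding. -/
lemma sum_overlap {h : ℕ} (hh : 1 ≤ h) (hL : 1 ≤ L) (x : T → Fin L)
    (hr : (Fintype.card T : ℝ) * 2 ^ (Fintype.card T ^ (h - 1)) / L ≤ 1 / 2) :
    ∑ y : T → Fin L, (2 : ℝ) ^ (#(univ.filter fun t => x t = y t) ^ h) ≤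
      (L : ℝ) ^ Fintype.card T *
        (1 + 2 * (Fintype.card T * 2 ^ (Fintype.card T ^ (h - 1)) / L)) := by
  classical
  have hL0 : (0 : ℝ) < L := by exact_mod_cast hL
  set M : ℕ := Fintype.card T with hM
  set r : ℝ := (M : ℝ) * 2 ^ (M ^ (h - 1)) / L with hrdef
  have hr0 : 0 ≤ r := by positivity
  have h1 : ∀ y : T → Fin L, (2 : ℝ) ^ (#(univ.filter fun t => x t = y t) ^ h) ≤
      ∑ J : Finset T, if (∀ t ∈ J, y t = x t) then (2 : ℝ) ^ (#J ^ h) else 0 := by
    intro y
    have e1 : ∀ t ∈ univ.filter (fun t => x t = y t), y t = x t := fun t ht =>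
      ((mem_filter.1 ht).2).symm
    calc (2 : ℝ) ^ (#(univ.filter fun t => x t = y t) ^ h) =
          if (∀ t ∈ univ.filter (fun t => x t = y t), y t = x t) then
            (2 : ℝ) ^ (#(univ.filter fun t => x t = y t) ^ h) else 0 := by rw [if_pos e1]
      _ ≤ _ := single_le_sum
          (f := fun J : Finset T => if (∀ t ∈ J, y t = x t) then (2 : ℝ) ^ (#J ^ h) else 0)
          (fun J _ => by split_ifs <;> positivity) (mem_univ _)
  refine (sum_le_sum fun y _ => h1 y).trans ?_
  rw [sum_comm]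
  have h2 : ∀ J : Finset T, ∑ y : T → Fin L, (if (∀ t ∈ J, y t = x t) then
      (2 : ℝ) ^ (#J ^ h) else 0) = (L : ℝ) ^ M * ((1 / L) ^ #J * 2 ^ (#J ^ h)) := by
    intro J
    rw [← sum_filter, sum_const, nsmul_eq_mul]
    have e1 : (#(univ.filter fun y : T → Fin L => ∀ t ∈ J, y t = x t) : ℝ) * L ^ #J =
        (L : ℝ) ^ M := by exact_mod_cast card_fix_set J x
    rw [← e1, one_div, inv_pow]
    field_simp
  rw [sum_congr rfl fun J _ => h2 J, ← mul_sum]
  refine mul_le_mul_of_nonneg_left ?_ (by positivity)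
  have h3 : ∑ J : Finset T, ((1 / (L : ℝ)) ^ #J * 2 ^ (#J ^ h)) =
      ∑ j ∈ range (M + 1), (M.choose j : ℝ) * ((1 / (L : ℝ)) ^ j * 2 ^ (j ^ h)) := by
    have := sum_powerset_apply_card (fun j => (1 / (L : ℝ)) ^ j * 2 ^ (j ^ h)) (x := (univ : Finset T))
    rw [powerset_univ] at this
    rw [this]
    simp only [card_univ, nsmul_eq_mul, hM]
  rw [h3, sum_range_succ']
  have h4 : ∀ j ∈ range M, (M.choose (j + 1) : ℝ) * ((1 / (L : ℝ)) ^ (j + 1) * 2 ^ ((j + 1) ^ h)) ≤
      r * (1 / 2) ^ j := by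
    intro j hj
    have hjM : j + 1 ≤ M := Nat.succ_le_of_lt (mem_range.1 hj)
    have e1 : (M.choose (j + 1) : ℝ) ≤ (M : ℝ) ^ (j + 1) := by
      exact_mod_cast Nat.choose_le_pow M (j + 1)
    have e2 : (2 : ℝ) ^ ((j + 1) ^ h) ≤ (2 ^ (M ^ (h - 1))) ^ (j + 1) := by
      rw [← pow_mul]
      apply pow_le_pow_right₀ (by norm_num)
      calc (j + 1) ^ h = (j + 1) ^ (h - 1) * (j + 1) := by
            rw [← pow_succ]; congr 1; omega
        _ ≤ M ^ (h - 1) * (j + 1) := Nat.mul_le_mul_right _ (Nat.pow_le_pow_left hjM _)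
    calc (M.choose (j + 1) : ℝ) * ((1 / (L : ℝ)) ^ (j + 1) * 2 ^ ((j + 1) ^ h))
        ≤ (M : ℝ) ^ (j + 1) * ((1 / (L : ℝ)) ^ (j + 1) * (2 ^ (M ^ (h - 1))) ^ (j + 1)) := by
          gcongr
      _ = r ^ (j + 1) := by rw [hrdef, ← mul_pow, ← mul_pow]; congr 1; ring
      _ = r * r ^ j := by rw [pow_succ]; ring
      _ ≤ r * (1 / 2) ^ j := mul_le_mul_of_nonneg_left (pow_le_pow_left₀ hr0 hr j) hr0
  have h5 : ∑ j ∈ range M, r * (1 / 2 : ℝ) ^ j ≤ 2 * r := by
    rw [← mul_sum]
    have : ∑ j ∈ range M, (1 / 2 : ℝ) ^ j ≤ 2 := sum_geometric_two_le M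
    nlinarith
  have h6 : (M.choose 0 : ℝ) * ((1 / (L : ℝ)) ^ 0 * 2 ^ (0 ^ h)) = 1 := by
    rw [zero_pow (by omega)]; simp
  rw [h6]
  have := (sum_le_sum h4).trans h5
  linarith

lemma sum_X_sq {h N : ℕ} (hh : 1 ≤ h) (hL : 1 ≤ L) {ι : T × Fin L → Fin N}
    (hι : Function.Injective ι) (W : Finset (Fin h → T))
    (hr : (Fintype.card T : ℝ) * 2 ^ (Fintype.card T ^ (h - 1)) / L ≤ 1 / 2) :
    ∑ B, ((2 : ℝ) ^ (Fintype.card T ^ h) * X ι W B) ^ 2 ≤
      ((L : ℝ) ^ Fintype.card T) ^ 2 * 2 ^ (N ^ h) *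
        (1 + 2 * (Fintype.card T * 2 ^ (Fintype.card T ^ (h - 1)) / L)) := by
  set k : ℕ := Fintype.card T ^ h with hk
  have h1 : ∀ B : Finset (Fin h → Fin N), ((2 : ℝ) ^ k * X ι W B) ^ 2 =
      ∑ x : T → Fin L, ∑ y : T → Fin L, (if (∀ t, cell ι x t ∈ B ↔ t ∈ W) ∧
        ∀ t, cell ι y t ∈ B ↔ t ∈ W then (4 : ℝ) ^ k else 0) := by
    intro B
    have e : (4 : ℝ) ^ k = 2 ^ k * 2 ^ k := by rw [← mul_pow]; norm_num
    simp only [X, card_filter, Nat.cast_sum, ite_and, e]
    rw [mul_pow, sq, sq, sum_mul_sum, mul_sum]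
    refine sum_congr rfl fun x _ => ?_
    rw [mul_sum]
    refine sum_congr rfl fun y _ => ?_
    split_ifs <;> simp
  simp only [h1]
  rw [sum_comm]
  rw [sum_congr rfl fun x _ => sum_comm]
  have h2 : ∀ x y : T → Fin L, ∑ B : Finset (Fin h → Fin N),
      (if (∀ t, cell ι x t ∈ B ↔ t ∈ W) ∧ ∀ t, cell ι y t ∈ B ↔ t ∈ W then (4 : ℝ) ^ k else 0) ≤
      2 ^ (N ^ h) * 2 ^ (#(univ.filter fun t => x t = y t) ^ h) := by
    intro x y
    rw [← sum_filter, sum_const, nsmul_eq_mul]
    exact_mod_cast both_card hι W x y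
  refine (sum_le_sum fun x _ => sum_le_sum fun y _ => h2 x y).trans ?_
  simp only [← mul_sum]
  have h3 : ∑ x : T → Fin L, ∑ y : T → Fin L, (2 : ℝ) ^ (#(univ.filter fun t => x t = y t) ^ h) ≤
      (L : ℝ) ^ Fintype.card T * ((L : ℝ) ^ Fintype.card T *
        (1 + 2 * (Fintype.card T * 2 ^ (Fintype.card T ^ (h - 1)) / L))) := by
    refine (sum_le_sum fun x _ => sum_overlap hh hL x hr).trans ?_
    rw [sum_const, card_univ, nsmul_eq_mul]
    simp
  refine (mul_le_mul_of_nonneg_left h3 (by positivity)).trans (le_of_eq ?_)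
  ring

/-- The average of the indicator function of `S` over the embedded pattern. -/
theorem second_moment {h N : ℕ} (hh : 1 ≤ h) (hL : 1 ≤ L) {ι : T × Fin L → Fin N}
    (hι : Function.Injective ι) (W : Finset (Fin h → T)) (S : Finset (Finset (Fin h → Fin N))) :
    (L : ℝ) ^ Fintype.card T * (#S - 2 ^ (N ^ h) *
        √(2 * (Fintype.card T * 2 ^ (Fintype.card T ^ (h - 1)) / L))) ≤
      ∑ B ∈ S, (2 : ℝ) ^ (Fintype.card T ^ h) * X ι W B := by
  set A : ℝ := (L : ℝ) ^ Fintype.card T with hA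
  set n : ℝ := (2 : ℝ) ^ (N ^ h) with hn
  set r : ℝ := 2 * (Fintype.card T * 2 ^ (Fintype.card T ^ (h - 1)) / L) with hr
  have hL0 : (0 : ℝ) < L := by exact_mod_cast hL
  have hA0 : 0 < A := by positivity
  have hn0 : 0 < n := by positivity
  have hr0 : 0 ≤ r := by positivity
  have hSn : (#S : ℝ) ≤ n := by
    have : #S ≤ 2 ^ (N ^ h) := by
      have := card_le_univ S
      simpa using this
    rw [hn]
    exact_mod_cast this
  rcases le_or_gt r 1 with hr1 | hr1
  swap
  · have e1 : 1 ≤ √r := Real.one_le_sqrt.2 hr1.le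
    have e2 : (#S : ℝ) - n * √r ≤ 0 := by nlinarith
    have e3 : 0 ≤ ∑ B ∈ S, (2 : ℝ) ^ (Fintype.card T ^ h) * X ι W B := by
      refine sum_nonneg fun B _ => ?_
      unfold X
      positivity
    exact (mul_nonpos_of_nonneg_of_nonpos hA0.le e2).trans e3
  have h1 : (∑ B ∈ S, (A - 2 ^ (Fintype.card T ^ h) * X ι W B)) ^ 2 ≤ (n * A * √r) ^ 2 := by
    calc (∑ B ∈ S, (A - 2 ^ (Fintype.card T ^ h) * X ι W B)) ^ 2
        ≤ #S * ∑ B ∈ S, (A - 2 ^ (Fintype.card T ^ h) * X ι W B) ^ 2 :=
          sq_sum_le_card_mul_sum_sq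
      _ ≤ n * ∑ B, (A - 2 ^ (Fintype.card T ^ h) * X ι W B) ^ 2 := by
          exact mul_le_mul hSn (sum_le_sum_of_subset_of_nonneg (subset_univ _)
            fun _ _ _ => sq_nonneg _) (sum_nonneg fun _ _ => sq_nonneg _) hn0.le
      _ = n * (∑ B, (2 ^ (Fintype.card T ^ h) * X ι W B) ^ 2 -
            2 * A * ∑ B, 2 ^ (Fintype.card T ^ h) * X ι W B + n * A ^ 2) := by
          congr 1
          rw [mul_sum, ← sum_sub_distrib]
          have : n * A ^ 2 = ∑ _B : Finset (Fin h → Fin N), A ^ 2 := by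
            rw [sum_const, card_univ, nsmul_eq_mul]; simp [hn]
          rw [this, ← sum_add_distrib]
          exact sum_congr rfl fun B _ => by ring
      _ ≤ n * (A ^ 2 * n * (1 + r) - 2 * A * (A * n) + n * A ^ 2) := by
          refine mul_le_mul_of_nonneg_left ?_ hn0.le
          have h2 := sum_X_sq hh hL hι W (by rw [hr] at hr1; linarith)
          have h3 := sum_X hι W
          rw [h3]
          linarith
      _ = (n * A * √r) ^ 2 := by
          rw [mul_pow, Real.sq_sqrt hr0]; ring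
  have h4 := abs_le_of_sq_le_sq h1 (by positivity)
  have h5 : ∑ B ∈ S, (A - 2 ^ (Fintype.card T ^ h) * X ι W B) =
      #S * A - ∑ B ∈ S, 2 ^ (Fintype.card T ^ h) * X ι W B := by
    rw [sum_sub_distrib, sum_const, nsmul_eq_mul]
  rw [h5] at h4
  have h6 := (le_abs_self _).trans h4
  linarith

end Moment

end Pool.Agent.Q146.RF
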